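import Pool.Agent.H63.VG.Engine

set_option autoImplicit false

/-! # The engine: words of differential operators and a twisted functional -/

namespace Pool.Agent.H63.VH

open MvPolynomial Pool.Agent.H63.VG

section Engine

variable {σ A R W : Type} [Fintype σ] [DecidableEq σ] [CommRing A] [CommRing R] [Algebra ℂ R]
  [AddCommGroup W]

theorem engine (θ : σ → Derivation ℂ R R) (hcomm : ∀ s t u, θ s (θ t u) = θ t (θ s u))
    (φ : MvPolynomial σ A →+* R)
    (hφ : ∀ t p, θ t (φ p) = ∑ i, θ t (φ (X i)) * φ (pderiv i p))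
    (f : MvPolynomial σ A) (s0 : A) (ζ : R) (hs0 : φ (C s0) = ζ)
    (e G H : R) (hf : φ f = e * G) (hH : G * H = 1) (he : ∀ t, θ t e = 0)
    (T : R →+ W) (hTe : ∀ u, T u = 0 → T (e * u) = 0)
    (hT : ∀ t u, T (θ t u + (ζ * (θ t G * H)) * u) = 0)
    (h0 : ∀ p, T ((Matrix.of fun t k => θ t (φ (X k))).det * φ p * G) = 0)
    (w : List (σ ⊕ σ)) (p : MvPolynomial σ A) :
    T ((Matrix.of fun t k => θ t (φ (X k))).det * φ p *
      (φ (qq f s0 w) * G * H ^ w.length)) = 0 := by
  set M : Matrix σ σ R := Matrix.of fun t k => θ t (φ (X k)) with hM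
  have hθH : ∀ t, θ t H = -(H ^ 2 * θ t G) := by
    intro t
    have h1 : θ t (G * H) = 0 := by rw [hH, Derivation.map_one_eq_zero]
    rw [Derivation.leibniz, smul_eq_mul, smul_eq_mul] at h1
    have h2 : H * (G * θ t H + H * θ t G) = 0 := by rw [h1, mul_zero]
    linear_combination h2 - θ t H * hH
  induction w generalizing p with
  | nil =>
    have := h0 p
    simpa [qq] using this
  | cons a w ih =>
    cases a with
    | inl i =>
      have h1 := hTe _ (ih (p * X i))
      rw [← h1]
      congr 1
      simp only [qq, map_mul, List.length_cons, pow_succ, hf]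
      linear_combination (M.det * φ p * φ (X i) * e * φ (qq f s0 w) * G * H ^ w.length) * hH
    | inr i =>
      set Q := qq f s0 w with hQ
      set n := w.length with hn
      set u : R := φ p * φ Q * G * H ^ n with hu
      have h1 := hTe _ (T_piola θ hcomm T (fun t => ζ * (θ t G * H)) hT
        (fun k => φ (X k)) i u)
      have h2 := hTe _ (ih (pderiv i p))
      have hθu : ∀ t, θ t u + ζ * (θ t G * H) * u =
          θ t (φ p) * (φ Q * G * H ^ n) + θ t (φ Q) * (φ p * G * H ^ n) +
          (ζ + 1 - n) * (θ t G * (φ p * φ Q * H ^ n)) := by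
        intro t
        have h3 : θ t (H ^ n) = -(n * H ^ (n + 1) * θ t G) := by
          rw [Derivation.leibniz_pow, hθH t, nsmul_eq_mul, smul_eq_mul]
          rcases Nat.eq_zero_or_pos n with h0 | h0
          · rw [h0]; simp
          · obtain ⟨m, hm⟩ : ∃ m, n = m + 1 := ⟨n - 1, by omega⟩
            rw [hm]
            simp only [Nat.add_sub_cancel]
            ring
        rw [hu, Derivation.leibniz, Derivation.leibniz, Derivation.leibniz, h3]
        simp only [smul_eq_mul]
        rw [pow_succ]
        linear_combination (-(n : R) * φ p * φ Q * H ^ n * θ t G +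
          ζ * θ t G * φ p * φ Q * H ^ n) * hH
      have hG : e * ∑ t, M.adjugate i t * θ t G = M.det * φ (pderiv i f) := by
        rw [← adj_apply θ φ hφ i f, Finset.mul_sum]
        refine Finset.sum_congr rfl fun t _ => ?_
        rw [hf, Derivation.leibniz, he t, smul_zero, add_zero, smul_eq_mul]
        ring
      have hsum : ∑ t, M.adjugate i t * (θ t u + ζ * (θ t G * H) * u) =
          (∑ t, M.adjugate i t * θ t (φ p)) * (φ Q * G * H ^ n) +
          (∑ t, M.adjugate i t * θ t (φ Q)) * (φ p * G * H ^ n) +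
          (ζ + 1 - n) * ((∑ t, M.adjugate i t * θ t G) * (φ p * φ Q * H ^ n)) := by
        rw [Finset.sum_mul, Finset.sum_mul, Finset.sum_mul, Finset.mul_sum,
          ← Finset.sum_add_distrib, ← Finset.sum_add_distrib]
        refine Finset.sum_congr rfl fun t _ => ?_
        rw [hθu t]
        ring
      rw [hsum, adj_apply θ φ hφ i p, adj_apply θ φ hφ i Q] at h1
      have h3 : M.det * φ p * (φ (qq f s0 (Sum.inr i :: w)) * G *
          H ^ (Sum.inr i :: w : List (σ ⊕ σ)).length) =
          e * (M.det * φ (pderiv i p) * (φ Q * G * H ^ n) +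
            M.det * φ (pderiv i Q) * (φ p * G * H ^ n) +
          (ζ + 1 - n) * ((∑ t, M.adjugate i t * θ t G) * (φ p * φ Q * H ^ n)))
          - e * (M.det * φ (pderiv i p) * (φ Q * G * H ^ n)) := by
        have h4 : φ (qq f s0 (Sum.inr i :: w)) = e * G * φ (pderiv i Q) +
            (ζ + 1 - n) * φ (pderiv i f) * φ Q := by
          simp only [qq, ← hQ, map_add, map_mul, hf, hs0, map_sub, map_natCast, map_one, ← hn]
        rw [h4, List.length_cons, ← hn, pow_succ]
        linear_combination (-(ζ + 1 - n) * (φ p * φ Q * H ^ n)) * hG +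
          (M.det * φ p * H ^ n * (e * G * φ (pderiv i Q) +
            (ζ + 1 - n) * φ (pderiv i f) * φ Q)) * hH
      rw [h3, map_sub, h1, h2, sub_zero]

end Engine

end Pool.Agent.H63.VH
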