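import Pool.Agent.H63.VH.Sub
import Pool.Agent.H63.VH.Engine

set_option autoImplicit false
set_option linter.unusedSectionVars false

/-! # The engine in a chart -/

namespace Pool.Agent.H63.VH

open PowerSeries

variable {k σ : Type} [CommRing k] [Algebra ℂ k] [Fintype σ] [DecidableEq σ] (e : σ → ℕ)

/-- the parameter -/
noncomputable def psi (D : ℕ) (d : σ → ℕ) (b : σ → k) : Polynomial k →ₐ[k] (BB k σ)⟦X⟧ :=
  Polynomial.aeval (X ^ D * C (tp d b))

/-- the polynomials on the chart -/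
noncomputable def phi (he : ∀ t, e t ≠ 0) (D : ℕ) (d : σ → ℕ) (b : σ → k)
    (ξ : σ → MvPowerSeries σ ℂ) : MvPolynomial σ (Polynomial k) →+* (BB k σ)⟦X⟧ :=
  MvPolynomial.eval₂Hom (psi D d b : Polynomial k →+* (BB k σ)⟦X⟧) fun i => SS e he (ξ i)

variable (he : ∀ t, e t ≠ 0) (D : ℕ) (d : σ → ℕ) (b : σ → k) (ξ : σ → MvPowerSeries σ ℂ)

theorem phi_C (a : Polynomial k) : phi e he D d b ξ (MvPolynomial.C a) = psi D d b a := by
  rw [phi, MvPolynomial.coe_eval₂Hom, MvPolynomial.eval₂_C]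
  rfl

theorem phi_X (i : σ) : phi e he D d b ξ (MvPolynomial.X i) = SS e he (ξ i) := by
  rw [phi, MvPolynomial.coe_eval₂Hom, MvPolynomial.eval₂_X]

/-- complex polynomials as polynomials over `k[t]` -/
noncomputable def cst : ℂ →+* Polynomial k := Polynomial.C.comp (algebraMap ℂ k)

theorem phi_map (f : MvPolynomial σ ℂ) :
    phi e he D d b ξ (MvPolynomial.map cst f) = SS e he (MvPolynomial.aeval ξ f) := by
  rw [phi, MvPolynomial.coe_eval₂Hom, MvPolynomial.eval₂_map, MvPolynomial.aeval_def]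
  change _ = (SS (k := k) e he : MvPowerSeries σ ℂ →+* (BB k σ)⟦X⟧) _
  rw [MvPolynomial.hom_eval₂]
  congr 1
  ext1 r
  change psi D d b (Polynomial.C (algebraMap ℂ k r)) = SS e he (algebraMap ℂ (MvPowerSeries σ ℂ) r)
  rw [AlgHom.commutes, psi, Polynomial.aeval_C, ← IsScalarTower.algebraMap_apply]

theorem PD_psi (t : σ) (a : Polynomial k) : PD (Th d b t) (psi D d b a) = 0 := by
  rw [psi, Derivation.map_aeval, Derivation.leibniz, PD_C, Th_tp, PD_X_pow]
  simp

theorem phi_der (t : σ) (p : MvPolynomial σ (Polynomial k)) :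
    PD (Th d b t) (phi e he D d b ξ p) = ∑ i, PD (Th d b t) (phi e he D d b ξ (MvPolynomial.X i)) *
      phi e he D d b ξ (MvPolynomial.pderiv i p) := by
  induction p using MvPolynomial.induction_on with
  | C a =>
    rw [phi_C, PD_psi]
    symm
    refine Finset.sum_eq_zero fun i _ => ?_
    rw [MvPolynomial.pderiv_C, map_zero, mul_zero]
  | add p q hp hq =>
    rw [map_add, map_add, hp, hq, ← Finset.sum_add_distrib]
    refine Finset.sum_congr rfl fun i _ => ?_
    rw [map_add, map_add, mul_add]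
  | mul_X p j hp =>
    rw [map_mul, Derivation.leibniz, hp, smul_eq_mul, smul_eq_mul, Finset.mul_sum]
    have h1 : ∀ i, PD (Th d b t) (phi e he D d b ξ (MvPolynomial.X i)) *
        phi e he D d b ξ (MvPolynomial.pderiv i (p * MvPolynomial.X j)) =
        phi e he D d b ξ (MvPolynomial.X j) * (PD (Th d b t) (phi e he D d b ξ (MvPolynomial.X i)) *
        phi e he D d b ξ (MvPolynomial.pderiv i p)) +
        (if i = j then phi e he D d b ξ p *
          PD (Th d b t) (phi e he D d b ξ (MvPolynomial.X j)) else 0) := by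
      intro i
      rw [Derivation.leibniz, smul_eq_mul, smul_eq_mul, MvPolynomial.pderiv_X, Pi.single_apply,
        map_add, map_mul, map_mul]
      by_cases hij : i = j
      · subst hij
        simp only [if_true, map_one]
        ring
      · rw [if_neg (fun h => hij h.symm), if_neg hij, map_zero]
        ring
    rw [Finset.sum_congr rfl fun i _ => h1 i, Finset.sum_add_distrib, Finset.sum_ite_eq',
      if_pos (Finset.mem_univ j)]
    ring

theorem psi_mem (Z : Gam σ → Prop) (hZ : Adm Z) (a : Polynomial k) : psi D d b a ∈ Rp Z := by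
  have h1 : X ^ D * C (tp d b) ∈ Rp Z :=
    (Rp Z).mul_mem ((Rp Z).pow_mem (X_mem_Rp Z) D) (C_mem_Rp Z _ (tp_mem_Bp Z hZ d b))
  rw [psi, Polynomial.aeval_eq_sum_range]
  exact (Rp Z).sum_mem fun i _ => (Rp Z).smul_mem ((Rp Z).pow_mem h1 i) _

theorem phi_mem (Z : Gam σ → Prop) (hZ : Adm Z) (p : MvPolynomial σ (Polynomial k)) :
    phi e he D d b ξ p ∈ Rp Z := by
  induction p using MvPolynomial.induction_on with
  | C a => rw [phi_C]; exact psi_mem D d b Z hZ a
  | add p q hp hq => rw [map_add]; exact (Rp Z).add_mem hp hq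
  | mul_X p j hp =>
    rw [map_mul, phi_X]
    exact (Rp Z).mul_mem hp (SS_mem_Rp e Z hZ he _)

theorem SS_prod (a : σ → ℕ) : (SS e he (∏ t, MvPowerSeries.X t ^ a t) : (BB k σ)⟦X⟧) =
    C (mon (fun t => (a t : ℤ), 0)) * X ^ (∑ t, e t * a t) := by
  have h := prod_sv (k := k) e (Finsupp.equivFunOnFinite.symm a)
  rw [Finsupp.prod_fintype _ _ (fun t => by rw [pow_zero])] at h
  rw [map_prod]
  calc ∏ t, SS (k := k) e he (MvPowerSeries.X t ^ a t) = ∏ t, sv e t ^ a t := by
        refine Finset.prod_congr rfl fun t _ => ?_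
        rw [map_pow, SS_X, sv]
    _ = _ := h

theorem jac_phi (κ : σ → ℕ) (U : MvPowerSeries σ ℂ)
    (hJ : (Matrix.of fun t i => MvPowerSeries.pderiv ℂ t (ξ i)).det =
      (∏ t, MvPowerSeries.X t ^ κ t) * U) :
    (Matrix.of fun t i => PD (Th d b t) (phi e he D d b ξ (MvPolynomial.X i))).det =
      X ^ (∑ t, e t * (κ t + 1)) * (C (mon (fun t => ((κ t + 1 : ℕ) : ℤ), 0)) * SS e he U) := by
  have h1 : (Matrix.of fun t i => PD (Th d b t) (phi e he D d b ξ (MvPolynomial.X i))) =
      (SS (k := k) e he : MvPowerSeries σ ℂ →+* (BB k σ)⟦X⟧).mapMatrix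
        (Matrix.of fun t i => MvPowerSeries.X t *
          (Matrix.of fun t i => MvPowerSeries.pderiv ℂ t (ξ i)) t i) := by
    ext1 t i
    rw [Matrix.of_apply, phi_X, PD_SS]
    rfl
  rw [h1, ← RingHom.map_det, Matrix.det_mul_column, hJ, ← mul_assoc, ← Finset.prod_mul_distrib]
  have h2 : ∏ t, (MvPowerSeries.X t * MvPowerSeries.X t ^ κ t : MvPowerSeries σ ℂ) =
      ∏ t, MvPowerSeries.X t ^ (κ t + 1) :=
    Finset.prod_congr rfl fun t _ => (pow_succ' _ _).symm
  rw [h2]
  change SS e he _ = _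
  rw [map_mul, SS_prod]
  ring

end Pool.Agent.H63.VH
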