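import Pool.Agent.H63.VH.Main3
import Pool.Agent.H63.VG.Gen

set_option autoImplicit false
set_option linter.unusedSectionVars false

/-! # Very general members: the reduction, with multiplicities -/

namespace Pool.Agent.H63.VH

open MvPolynomial Pool.Agent.H628R4.TP Pool.Agent.H63.VG

section Words

variable {σ : Type}

/-- the functional equation in terms of words, as an identity of polynomials in `s` -/
theorem words_poly (f : MvPolynomial σ ℂ) (hf : f ≠ 0) (b : Polynomial ℂ) (hb : IsBFunction f b) :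
    ∃ (N : ℕ) (S : Finset (List (σ ⊕ σ))) (c : List (σ ⊕ σ) → Polynomial ℂ),
      (∀ w ∈ S, w.length ≤ N) ∧ C b * (map Polynomial.C f) ^ N =
        ∑ w ∈ S, C (c w) * (map Polynomial.C f) ^ (N + 1 - w.length) *
          qq (map Polynomial.C f) Polynomial.X w := by
  obtain ⟨N, S, c, hS, h⟩ := words_nat f hf b hb
  refine ⟨N, S, c, hS, ?_⟩
  rw [← sub_eq_zero]
  set E : MvPolynomial σ (Polynomial ℂ) := C b * (map Polynomial.C f) ^ N -
    ∑ w ∈ S, C (c w) * (map Polynomial.C f) ^ (N + 1 - w.length) *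
      qq (map Polynomial.C f) Polynomial.X w with hE
  have h1 : ∀ z : ℂ, map (Polynomial.evalRingHom z) E = C (b.eval z) * f ^ N -
      ∑ w ∈ S, C ((c w).eval z) * f ^ (N + 1 - w.length) * qq f z w := by
    intro z
    have h2 : map (Polynomial.evalRingHom z) (map Polynomial.C f) = f := by
      rw [map_map]
      have : (Polynomial.evalRingHom z).comp Polynomial.C = RingHom.id ℂ := by
        ext r
        simp
      rw [this, map_id]
    rw [hE, map_sub, map_mul, map_C, map_pow, h2, map_sum]
    congr 1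
    refine Finset.sum_congr rfl fun w _ => ?_
    rw [map_mul, map_mul, map_C, map_pow, h2, map_qq, h2]
    simp
  refine MvPolynomial.ext _ _ fun μ => ?_
  rw [coeff_zero]
  refine Polynomial.eq_zero_of_infinite_isRoot _ ?_
  refine Set.Infinite.mono ?_ (Set.infinite_range_of_injective (Nat.cast_injective (R := ℂ)))
  rintro _ ⟨s, rfl⟩
  have h3 := h1 s
  rw [h s, sub_self] at h3
  have h4 := congrArg (coeff μ) h3
  rw [coeff_map, coeff_zero] at h4
  exact h4

end Words

section Coef

variable {K : Subfield ℂ} (l : ℂ →ₗ[K] K)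

/-- a linear functional, applied to the coefficients -/
noncomputable def Lc (p : Polynomial ℂ) : Polynomial K :=
  ∑ i ∈ Finset.range (p.natDegree + 1), Polynomial.C (l (p.coeff i)) * Polynomial.X ^ i

theorem coeff_Lc (p : Polynomial ℂ) (n : ℕ) : (Lc l p).coeff n = l (p.coeff n) := by
  rw [Lc, Polynomial.finsetSum_coeff]
  simp only [Polynomial.coeff_C_mul_X_pow]
  rw [Finset.sum_ite_eq]
  split_ifs with h
  · rfl
  · rw [Polynomial.coeff_eq_zero_of_natDegree_lt, map_zero]
    rw [Finset.mem_range] at h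
    omega

theorem Lc_mul (p : Polynomial ℂ) (q : Polynomial K) :
    Lc l (p * q.map (algebraMap K ℂ)) = Lc l p * q := by
  ext1 n
  rw [coeff_Lc, Polynomial.coeff_mul, Polynomial.coeff_mul, map_sum]
  refine Finset.sum_congr rfl fun x _ => ?_
  rw [Polynomial.coeff_map, coeff_Lc, mul_comm]
  have h3 : (algebraMap K ℂ) (q.coeff x.2) * p.coeff x.1 = (q.coeff x.2) • p.coeff x.1 := rfl
  rw [h3, map_smul, smul_eq_mul, mul_comm]

theorem Lc_sum {κ : Type} (s : Finset κ) (p : κ → Polynomial ℂ) :
    Lc l (∑ i ∈ s, p i) = ∑ i ∈ s, Lc l (p i) := by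
  ext1 n
  rw [coeff_Lc, Polynomial.finsetSum_coeff, Polynomial.finsetSum_coeff, map_sum]
  exact Finset.sum_congr rfl fun i _ => (coeff_Lc l _ _).symm

theorem eval_Lc (p : Polynomial ℂ) (z : K) : (Lc l p).eval z = l (p.eval (z : ℂ)) := by
  have h1 : (Lc l p).natDegree < p.natDegree + 1 := by
    rw [Nat.lt_succ_iff, Polynomial.natDegree_le_iff_coeff_eq_zero]
    intro n hn
    rw [coeff_Lc, Polynomial.coeff_eq_zero_of_natDegree_lt hn, map_zero]
  rw [Polynomial.eval_eq_sum_range' h1, Polynomial.eval_eq_sum_range, map_sum]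
  refine Finset.sum_congr rfl fun i _ => ?_
  rw [coeff_Lc]
  have h3 : p.coeff i * (z : ℂ) ^ i = (z ^ i) • p.coeff i := by
    rw [mul_comm]
    rfl
  rw [h3, map_smul, smul_eq_mul, mul_comm]

/-- the descent of a functional equation -/
theorem descent_poly {σ : Type} (K : Subfield ℂ) (f : MvPolynomial σ K) (b : Polynomial ℂ)
    (hb0 : b ≠ 0) (z : K) (N : ℕ) (S : Finset (List (σ ⊕ σ)))
    (c : List (σ ⊕ σ) → Polynomial ℂ)
    (h : C b * (map Polynomial.C (map (algebraMap K ℂ) f)) ^ N =
      ∑ w ∈ S, C (c w) * (map Polynomial.C (map (algebraMap K ℂ) f)) ^ (N + 1 - w.length) *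
        qq (map Polynomial.C (map (algebraMap K ℂ) f)) Polynomial.X w) :
    ∃ (b' : Polynomial K) (c' : List (σ ⊕ σ) → Polynomial K), b'.eval z = 1 ∧
      C ((Polynomial.X - Polynomial.C z) ^ b.rootMultiplicity (z : ℂ) * b') *
        (map Polynomial.C f) ^ N = ∑ w ∈ S, C (c' w) * (map Polynomial.C f) ^ (N + 1 - w.length) *
          qq (map Polynomial.C f) Polynomial.X w := by
  obtain ⟨b1, hb1, hb2⟩ := Polynomial.exists_eq_pow_rootMultiplicity_mul_and_not_dvd b hb0 (z : ℂ)
  have hb3 : b1.eval (z : ℂ) ≠ 0 := fun h0 => hb2 (Polynomial.dvd_iff_isRoot.2 h0)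
  obtain ⟨l, hl⟩ := exists_functional K _ hb3
  have hLb : Lc l b = (Polynomial.X - Polynomial.C z) ^ b.rootMultiplicity (z : ℂ) * Lc l b1 := by
    have h1 : ((Polynomial.X - Polynomial.C z) ^ b.rootMultiplicity (z : ℂ) :
        Polynomial K).map (algebraMap K ℂ) =
        (Polynomial.X - Polynomial.C (z : ℂ)) ^ b.rootMultiplicity (z : ℂ) := by
      rw [Polynomial.map_pow, Polynomial.map_sub, Polynomial.map_X, Polynomial.map_C]
      rfl
    conv_lhs => rw [hb1]
    rw [mul_comm, ← h1, Lc_mul, mul_comm]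
  refine ⟨Lc l b1, fun w => Lc l (c w), by rw [eval_Lc, hl], ?_⟩
  rw [← hLb]
  have hf : map Polynomial.C (map (algebraMap K ℂ) f) =
      map (Polynomial.mapRingHom (algebraMap K ℂ)) (map Polynomial.C f) := by
    rw [map_map, map_map]
    congr 2
    ext1 r
    simp
  rw [hf] at h
  refine MvPolynomial.ext _ _ fun μ => ?_
  have h1 : Lc l (coeff μ _) = Lc l (coeff μ _) := congrArg (fun p => Lc l (coeff μ p)) h
  have h2 : ∀ (r : Polynomial ℂ) (p : MvPolynomial σ (Polynomial K)),
      Lc l (coeff μ (C r * map (Polynomial.mapRingHom (algebraMap K ℂ)) p)) =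
      Lc l r * coeff μ p := by
    intro r p
    rw [coeff_C_mul, coeff_map, Polynomial.coe_mapRingHom, Lc_mul]
  rw [← map_pow, h2] at h1
  rw [coeff_C_mul, h1, coeff_sum, coeff_sum, Lc_sum]
  refine Finset.sum_congr rfl fun w _ => ?_
  have h3 : (Polynomial.X : Polynomial ℂ) =
      Polynomial.mapRingHom (algebraMap K ℂ) Polynomial.X := by simp
  rw [← map_pow, h3, ← map_qq, mul_assoc, ← map_mul, h2, mul_assoc, coeff_C_mul]

end Coef

section Den

/-- denominators -/
theorem exists_den {A K : Type} [CommRing A] [IsDomain A] [Field K] (g : A →+* K)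
    (hg : ∀ x : K, ∃ n d : A, g d ≠ 0 ∧ x * g d = g n) (p : Polynomial K) :
    ∃ (δ : A) (P : Polynomial A), g δ ≠ 0 ∧ P.map g = Polynomial.C (g δ) * p := by
  induction p using Polynomial.induction_on' with
  | add p q hp hq =>
    obtain ⟨δ1, P1, h1, h2⟩ := hp
    obtain ⟨δ2, P2, h3, h4⟩ := hq
    refine ⟨δ1 * δ2, Polynomial.C δ2 * P1 + Polynomial.C δ1 * P2, ?_, ?_⟩
    · rw [map_mul]; exact mul_ne_zero h1 h3
    · rw [Polynomial.map_add, Polynomial.map_mul, Polynomial.map_mul, Polynomial.map_C,
        Polynomial.map_C, h2, h4, map_mul, map_mul]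
      ring
  | monomial n a =>
    obtain ⟨x, d, h1, h2⟩ := hg a
    refine ⟨d, Polynomial.monomial n x, h1, ?_⟩
    rw [Polynomial.map_monomial, Polynomial.C_mul_monomial, ← h2, mul_comm]

theorem map_qq_poly {σ A K : Type} [CommRing A] [CommRing K] (g : A →+* K) (f : MvPolynomial σ A)
    (w : List (σ ⊕ σ)) : map (Polynomial.mapRingHom g) (qq (map Polynomial.C f) Polynomial.X w) =
      qq (map Polynomial.C (map g f)) Polynomial.X w := by
  have h1 : map (Polynomial.mapRingHom g) (map Polynomial.C f) = map Polynomial.C (map g f) := by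
    rw [map_map, map_map]
    congr 2
    refine RingHom.ext fun r => ?_
    simp
  rw [map_qq, h1]
  simp

theorem map_C_poly {σ A K : Type} [CommRing A] [CommRing K] (g : A →+* K) (f : MvPolynomial σ A) :
    map (Polynomial.mapRingHom g) (map Polynomial.C f) = map Polynomial.C (map g f) := by
  rw [map_map, map_map]
  congr 2
  refine RingHom.ext fun r => ?_
  simp

theorem clear_den {σ A K : Type} [CommRing A] [IsDomain A] [Field K] (g : A →+* K)
    (hinj : Function.Injective g) (hfrac : ∀ x : K, ∃ n d : A, g d ≠ 0 ∧ x * g d = g n)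
    (U : MvPolynomial σ A) (z : A) (N ν : ℕ) (S : Finset (List (σ ⊕ σ))) (b' : Polynomial K)
    (c' : List (σ ⊕ σ) → Polynomial K) (hb'z : b'.eval (g z) = 1)
    (hc' : C ((Polynomial.X - Polynomial.C (g z)) ^ ν * b') * (map Polynomial.C (map g U)) ^ N =
      ∑ w ∈ S, C (c' w) * (map Polynomial.C (map g U)) ^ (N + 1 - w.length) *
        qq (map Polynomial.C (map g U)) Polynomial.X w) :
    ∃ (D1 : Polynomial A) (r : List (σ ⊕ σ) → Polynomial A), D1.eval z ≠ 0 ∧
      C ((Polynomial.X - Polynomial.C z) ^ ν * D1) * (map Polynomial.C U) ^ N =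
        ∑ w ∈ S, C (r w) * (map Polynomial.C U) ^ (N + 1 - w.length) *
          qq (map Polynomial.C U) Polynomial.X w := by
  classical
  choose δ P hδ hP using exists_den g hfrac
  refine ⟨Polynomial.C (∏ w ∈ S, δ (c' w)) * P b', fun w =>
    Polynomial.C (δ b' * ∏ w' ∈ S.erase w, δ (c' w')) * P (c' w), ?_, ?_⟩
  · intro h2
    have h3 := congrArg g h2
    rw [map_zero, Polynomial.eval_mul, Polynomial.eval_C, map_mul, map_prod,
      ← Polynomial.eval_map_apply, hP, Polynomial.eval_mul, Polynomial.eval_C, hb'z, mul_one] at h3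
    exact mul_ne_zero (Finset.prod_ne_zero_iff.2 fun w _ => hδ _) (hδ _) h3
  · refine map_injective (Polynomial.mapRingHom g) (Polynomial.map_injective g hinj) ?_
    have hmm := map_C_poly g U
    rw [map_mul, map_C, map_pow, hmm, map_sum]
    simp only [Polynomial.coe_mapRingHom, Polynomial.map_mul, Polynomial.map_pow,
      Polynomial.map_sub, Polynomial.map_X, Polynomial.map_C, hP]
    have h2 : C ((Polynomial.X - Polynomial.C (g z)) ^ ν *
        (Polynomial.C (g (∏ w ∈ S, δ (c' w))) * (Polynomial.C (g (δ b')) * b'))) *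
        (map Polynomial.C (map g U)) ^ N =
        C (Polynomial.C (g (∏ w ∈ S, δ (c' w))) * Polynomial.C (g (δ b'))) *
        (C ((Polynomial.X - Polynomial.C (g z)) ^ ν * b') *
          (map Polynomial.C (map g U)) ^ N) := by
      simp only [map_mul]
      ring
    rw [h2, hc', Finset.mul_sum]
    refine Finset.sum_congr rfl fun w hw => ?_
    rw [map_mul (map (Polynomial.mapRingHom g)) (_ * _),
      map_mul (map (Polynomial.mapRingHom g)) (C _), map_C,
      map_pow (map (Polynomial.mapRingHom g)), hmm, map_qq_poly]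
    simp only [Polynomial.coe_mapRingHom, Polynomial.map_mul, Polynomial.map_C, hP]
    rw [← Finset.mul_prod_erase S _ hw]
    simp only [map_mul]
    ring

end Den

section Universal

variable {σ ι : Type} [Fintype ι] {F : Subfield ℂ} (G : ι → MvPolynomial σ F)

theorem universal_poly (c : ι → ℂ) (hc : AlgebraicIndependent F c) (hG : ∃ μ, G μ ≠ 0)
    (b : Polynomial ℂ) (hb : IsBFunction (member G c) b) (hb0 : b ≠ 0) (z : F) :
    ∃ (N : ℕ) (S : Finset (List (σ ⊕ σ))) (D1 : Polynomial (MvPolynomial ι F))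
      (r : List (σ ⊕ σ) → Polynomial (MvPolynomial ι F)), (∀ w ∈ S, w.length ≤ N) ∧
      D1.eval (C z) ≠ 0 ∧
      C ((Polynomial.X - Polynomial.C (C z)) ^ b.rootMultiplicity (z : ℂ) * D1) *
        (map Polynomial.C (univ' G)) ^ N = ∑ w ∈ S, C (r w) *
          (map Polynomial.C (univ' G)) ^ (N + 1 - w.length) *
            qq (A := Polynomial (MvPolynomial ι F)) (map Polynomial.C (univ' G))
              Polynomial.X w := by
  classical
  set ev : MvPolynomial ι F →+* ℂ := (aeval c : MvPolynomial ι F →ₐ[F] ℂ).toRingHom with hev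
  have hinj : Function.Injective ev := hc
  have hU0 : univ' G ≠ 0 := by
    obtain ⟨μ, hμ⟩ := hG
    intro h0
    apply hμ
    -- specialise `X ν ↦ δ_{μν}`
    have h1 := map_univ' G (eval fun ν => if ν = μ then (1 : F) else 0)
    rw [h0, map_zero, Finset.sum_eq_single μ] at h1
    · rw [eval_X, if_pos rfl, map_one, one_mul] at h1
      have h2 : ((eval fun ν => if ν = μ then (1 : F) else 0) : MvPolynomial ι F →+* F).comp C =
          RingHom.id F := by
        ext r
        simp
      rw [h2, map_id] at h1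
      exact h1.symm
    · intro ν _ hν
      rw [eval_X, if_neg hν, map_zero, zero_mul]
    · intro h; exact absurd (Finset.mem_univ _) h
  have hf0 : member G c ≠ 0 := by
    rw [member_eq]
    intro h0
    exact hU0 (map_injective ev hinj (by rw [map_zero]; exact h0))
  obtain ⟨N, S, c1, hS, h1⟩ := words_poly (member G c) hf0 b hb
  -- the field of definition
  set K : IntermediateField F ℂ := IntermediateField.adjoin F (Set.range c) with hK
  have hevK : ∀ x, ev x ∈ K.toSubfield := by
    intro x
    change ev x ∈ K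
    rw [hK, IntermediateField.mem_adjoin_range_iff]
    exact ⟨x, 1, by rw [map_one, div_one]; rfl⟩
  set evK : MvPolynomial ι F →+* K.toSubfield := ev.codRestrict K.toSubfield hevK with hevKd
  have hevKinj : Function.Injective evK := by
    intro x y hxy
    exact hinj (congrArg Subtype.val hxy)
  have hfK : map (algebraMap K.toSubfield ℂ) (map evK (univ' G)) = member G c := by
    rw [member_eq, map_map]
    rfl
  have hzK : ((evK (C z) : K.toSubfield) : ℂ) = z := by
    change aeval c (C z) = (z : ℂ)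
    rw [aeval_C]
    rfl
  have hfrac : ∀ x : K.toSubfield, ∃ n d : MvPolynomial ι F, evK d ≠ 0 ∧ x * evK d = evK n := by
    intro x
    have h2 : (x : ℂ) ∈ K := x.2
    obtain ⟨n, d, h3⟩ := (IntermediateField.mem_adjoin_range_iff F c _).1 h2
    by_cases hd : ev d = 0
    · refine ⟨0, 1, by rw [map_one]; exact one_ne_zero, ?_⟩
      have h4 : aeval c d = (0 : ℂ) := hd
      rw [map_one, mul_one, map_zero]
      refine Subtype.ext ?_
      rw [h3, h4, div_zero]
      rfl
    · refine ⟨n, d, fun h => hd (congrArg Subtype.val h), ?_⟩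
      refine Subtype.ext ?_
      change (x : ℂ) * ev d = ev n
      rw [h3]
      exact div_mul_cancel₀ _ hd
  obtain ⟨b', c', hb'z, hc'⟩ := descent_poly K.toSubfield (map evK (univ' G)) b hb0 (evK (C z)) N S
    c1 (by rw [hfK]; exact h1)
  rw [hzK] at hc'
  obtain ⟨D1, r, h2, h3⟩ := clear_den evK hevKinj hfrac (univ' G) (C z) N
    (b.rootMultiplicity (z : ℂ)) S b' c' hb'z hc'
  exact ⟨N, S, D1, r, hS, h2, h3⟩

end Universal

end Pool.Agent.H63.VH
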