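import Mathlib

set_option autoImplicit false

/-! # The ring `ℂ[ε] / (ε ^ μ)` -/

namespace Pool.Agent.H63.VH

open Polynomial

/-- the ring `ℂ[ε] / (ε ^ μ)` -/
abbrev KK (μ : ℕ) : Type := ℂ[X] ⧸ Ideal.span {(X ^ μ : ℂ[X])}

/-- the element `ε` -/
noncomputable def epsK (μ : ℕ) : KK μ := Ideal.Quotient.mk _ X

theorem epsK_pow (μ : ℕ) : (epsK μ) ^ μ = 0 := by
  rw [epsK, ← map_pow, Ideal.Quotient.eq_zero_iff_mem]
  exact Ideal.subset_span rfl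

theorem epsK_unit (μ : ℕ) (r : ℂ) (x : KK μ) (hr : r ≠ 0) :
    IsUnit (algebraMap ℂ (KK μ) r + epsK μ * x) := by
  have h1 : IsNilpotent (epsK μ * x) := ⟨μ, by rw [mul_pow, epsK_pow, zero_mul]⟩
  exact h1.isUnit_add_left_of_commute ((IsUnit.mk0 r hr).map (algebraMap ℂ (KK μ)))
    (Commute.all _ _)

/-- the augmentation -/
noncomputable def piK (μ : ℕ) (hμ : μ ≠ 0) : KK μ →+* ℂ :=
  Ideal.Quotient.lift _ (evalRingHom 0) (by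
    intro p hp
    rw [Ideal.mem_span_singleton] at hp
    obtain ⟨q, rfl⟩ := hp
    simp [hμ])

theorem piK_mk (μ : ℕ) (hμ : μ ≠ 0) (p : ℂ[X]) :
    piK μ hμ (Ideal.Quotient.mk _ p) = p.eval 0 := rfl

theorem piK_algebraMap (μ : ℕ) (hμ : μ ≠ 0) (r : ℂ) : piK μ hμ (algebraMap ℂ (KK μ) r) = r := by
  change piK μ hμ (Ideal.Quotient.mk _ (C r)) = r
  rw [piK_mk, eval_C]

theorem piK_eps (μ : ℕ) (hμ : μ ≠ 0) : piK μ hμ (epsK μ) = 0 := by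
  rw [epsK, piK_mk, eval_X]

theorem piK_zero (μ : ℕ) (hμ : μ ≠ 0) (ν : ℕ) (hν : ν < μ) (x : KK μ)
    (hx : (epsK μ) ^ ν * x = 0) : piK μ hμ x = 0 := by
  obtain ⟨p, rfl⟩ := Ideal.Quotient.mk_surjective x
  rw [epsK, ← map_pow, ← map_mul, Ideal.Quotient.eq_zero_iff_mem, Ideal.mem_span_singleton] at hx
  rw [piK_mk]
  obtain ⟨m, rfl⟩ : ∃ m, μ = ν + (m + 1) := ⟨μ - ν - 1, by omega⟩
  rw [pow_add, mul_dvd_mul_iff_left (pow_ne_zero _ X_ne_zero), pow_succ'] at hx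
  obtain ⟨q, rfl⟩ := hx
  simp

end Pool.Agent.H63.VH
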