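import Pool.Agent.H63.VH.Rec

set_option autoImplicit false
set_option linter.unusedSectionVars false

/-! # Laurent polynomials in the variables `x t` and `η` -/

namespace Pool.Agent.H63.VH

section Basic

variable {k σ : Type} [CommRing k]

/-- the exponents -/
abbrev Gam (σ : Type) := (σ → ℤ) × ℤ

/-- Laurent polynomials -/
abbrev BB (k σ : Type) [CommRing k] := AddMonoidAlgebra k (Gam σ)

/-- monomials -/
noncomputable def mon (γ : Gam σ) : BB k σ := AddMonoidAlgebra.single γ 1

theorem mon_mul (γ δ : Gam σ) : (mon γ * mon δ : BB k σ) = mon (γ + δ) := by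
  rw [mon, mon, AddMonoidAlgebra.single_mul_single, one_mul, mon]

theorem mon_zero : (mon 0 : BB k σ) = 1 := rfl

/-- linear maps on Laurent polynomials -/
noncomputable def lin {V : Type} [AddCommGroup V] [Module k V] (v : Gam σ → V) : BB k σ →ₗ[k] V :=
  (Finsupp.linearCombination k v) ∘ₗ (AddMonoidAlgebra.coeffLinearEquiv k).toLinearMap

theorem lin_mon {V : Type} [AddCommGroup V] [Module k V] (v : Gam σ → V) (γ : Gam σ) :
    lin v (mon γ : BB k σ) = v γ := by
  simp [lin, mon]

theorem smul_mon (γ : Gam σ) (r : k) : AddMonoidAlgebra.single γ r = r • mon γ := by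
  rw [mon, AddMonoidAlgebra.smul_single, smul_eq_mul, mul_one]

theorem BB_ind {P : BB k σ → Prop} (h0 : P 0) (h1 : ∀ a b, P a → P b → P (a + b))
    (h2 : ∀ γ (r : k), P (r • mon γ)) (a : BB k σ) : P a :=
  AddMonoidAlgebra.induction_linear a h0 (fun _ _ => h1 _ _) fun γ r => by
    rw [smul_mon]; exact h2 γ r

theorem BB_ext {V : Type} [AddCommGroup V] [Module k V] {f g : BB k σ →ₗ[k] V}
    (h : ∀ γ, f (mon γ) = g (mon γ)) : f = g := by
  refine LinearMap.ext fun a => ?_
  refine BB_ind (P := fun a => f a = g a) ?_ ?_ ?_ a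
  · rw [map_zero, map_zero]
  · intro a b ha hb
    rw [map_add, map_add, ha, hb]
  · intro γ r
    rw [map_smul, map_smul, h γ]

/-- the derivation attached to an additive character -/
noncomputable def DD (χ : Gam σ →+ k) : Derivation k (BB k σ) (BB k σ) :=
  Derivation.mk' (lin fun γ => χ γ • mon γ) (by
    intro a b
    refine BB_ind (P := fun a => lin (fun γ => χ γ • mon γ) (a * b) =
      a • lin (fun γ => χ γ • mon γ) b + b • lin (fun γ => χ γ • mon γ) a) ?_ ?_ ?_ a
    · simp
    · intro a a' h h'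
      rw [add_mul, map_add, h, h', map_add]
      simp only [smul_eq_mul]
      ring
    · intro γ r
      refine BB_ind (P := fun b => lin (fun γ => χ γ • mon γ) (r • mon γ * b) =
        (r • mon γ) • lin (fun γ => χ γ • mon γ) b + b • lin (fun γ => χ γ • mon γ) (r • mon γ))
        ?_ ?_ ?_ b
      · simp
      · intro a a' h h'
        rw [mul_add, map_add, h, h', map_add]
        simp only [smul_eq_mul]
        ring
      · intro δ r'
        rw [smul_mul_smul_comm, mon_mul, map_smul, lin_mon, map_smul, lin_mon, map_smul, lin_mon,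
          map_add]
        simp only [smul_eq_mul, smul_mul_assoc, mul_smul_comm, smul_smul, mon_mul, add_smul,
          smul_add]
        rw [add_comm δ γ, ← add_smul, ← add_smul]
        congr 1
        ring)

theorem DD_mon (χ : Gam σ →+ k) (γ : Gam σ) : DD χ (mon γ) = χ γ • mon γ := by
  change lin (fun γ => χ γ • mon γ) (mon γ) = _
  rw [lin_mon]

end Basic

section Theta

variable {k σ : Type} [CommRing k] [DecidableEq σ]

/-- the exponent of `x t` -/
def chx (t : σ) : Gam σ →+ k where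
  toFun γ := (γ.1 t : k)
  map_zero' := by simp
  map_add' a b := by simp

/-- the exponent of `η` -/
def che : Gam σ →+ k where
  toFun γ := (γ.2 : k)
  map_zero' := by simp
  map_add' a b := by simp

/-- the exponent of `x t ^ d t * η ^ j` -/
def dl (d : σ → ℕ) (t : σ) (j : ℤ) : Gam σ := (Pi.single t (d t : ℤ), j)

/-- the logarithmic derivations in the `x t`, with `η - ∑ b t * x t ^ d t` fixed -/
noncomputable def Th (d : σ → ℕ) (b : σ → k) (t : σ) : Derivation k (BB k σ) (BB k σ) :=
  DD (chx t) + (((d t : k) * b t) • (mon (dl d t (-1)) : BB k σ)) • DD che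

variable (d : σ → ℕ) (b : σ → k)

theorem Th_mon (t : σ) (γ : Gam σ) : Th d b t (mon γ) =
    (γ.1 t : k) • mon γ + ((d t : k) * b t * γ.2) • mon (γ + dl d t (-1)) := by
  rw [Th, Derivation.add_apply, Derivation.smul_apply, DD_mon, DD_mon, smul_eq_mul,
    smul_mul_smul_comm, mon_mul, add_comm (dl d t (-1)) γ]
  rfl

theorem Th_comm (s t : σ) (u : BB k σ) : Th d b s (Th d b t u) = Th d b t (Th d b s u) := by
  by_cases hst : s = t
  · rw [hst]
  have h : (Th d b s).toLinearMap ∘ₗ (Th d b t).toLinearMap =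
      (Th d b t).toLinearMap ∘ₗ (Th d b s).toLinearMap := by
    refine BB_ext fun γ => ?_
    change Th d b s (Th d b t (mon γ)) = Th d b t (Th d b s (mon γ))
    have e1 : (γ + dl d t (-1)).1 s = γ.1 s := by
      simp [dl, Pi.single_eq_of_ne hst]
    have e2 : (γ + dl d s (-1)).1 t = γ.1 t := by
      simp [dl, Pi.single_eq_of_ne (Ne.symm hst)]
    have e3 : ∀ t, (γ + dl d t (-1)).2 = γ.2 - 1 := fun t => rfl
    have e4 : γ + dl d s (-1) + dl d t (-1) = γ + dl d t (-1) + dl d s (-1) := by
      rw [add_assoc, add_comm (dl d s (-1)), ← add_assoc]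
    rw [Th_mon, Th_mon, map_add, map_add, Derivation.map_smul, Derivation.map_smul,
      Derivation.map_smul, Derivation.map_smul, Th_mon, Th_mon, Th_mon, Th_mon, e1, e2, e3, e3, e4]
    simp only [smul_add, smul_smul]
    have e5 : (d s : k) * b s * γ.2 * ((d t : k) * b t * ((γ.2 - 1 : ℤ) : k)) =
      (d t : k) * b t * γ.2 * ((d s : k) * b s * ((γ.2 - 1 : ℤ) : k)) := by ring
    have e6 : (γ.1 s : k) * γ.1 t = (γ.1 t : k) * γ.1 s := mul_comm _ _
    have e7 : (γ.1 s : k) * ((d t : k) * b t * γ.2) = (d t : k) * b t * γ.2 * γ.1 s := by ring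
    have e8 : (γ.1 t : k) * ((d s : k) * b s * γ.2) = (d s : k) * b s * γ.2 * γ.1 t := by ring
    rw [e5, e6, e7, e8]
    abel
  exact LinearMap.congr_fun h u

/-- the value of the parameter -/
noncomputable def tp [Fintype σ] : BB k σ := mon (0, 1) - ∑ t, b t • mon (dl d t 0)

theorem Th_tp [Fintype σ] (t : σ) : Th d b t (tp d b) = 0 := by
  have h1 : ∀ s, Th d b t (mon (dl d s 0)) = if s = t then (d t : k) • mon (dl d t 0) else 0 := by
    intro s
    rw [Th_mon]
    have e1 : ((dl d s 0).2 : ℤ) = 0 := rfl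
    rw [e1, Int.cast_zero, mul_zero, zero_smul, add_zero]
    split_ifs with h
    · subst h
      simp [dl]
    · have e2 : (dl d s 0).1 t = 0 := by simp [dl, Pi.single_eq_of_ne (Ne.symm h)]
      rw [e2, Int.cast_zero, zero_smul]
  have h2 : Th d b t (mon (0, 1)) = ((d t : k) * b t) • mon (dl d t 0) := by
    rw [Th_mon]
    have e1 : ((0, 1) + dl d t (-1) : Gam σ) = dl d t 0 := by simp [dl]
    rw [e1]
    simp
  rw [tp, map_sub, h2, map_sum]
  have h3 : ∀ s, Th d b t (b s • mon (dl d s 0)) =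
      if s = t then (b t * (d t : k)) • mon (dl d t 0) else 0 := by
    intro s
    rw [Derivation.map_smul, h1]
    split_ifs with h
    · rw [h, smul_smul]
    · rw [smul_zero]
  rw [Finset.sum_congr rfl fun s _ => h3 s, Finset.sum_ite_eq' Finset.univ t,
    if_pos (Finset.mem_univ t), mul_comm, sub_self]

end Theta

section Functional

variable {k σ : Type} [CommRing k] [DecidableEq σ] [Fintype σ]

/-- the exponents in the support of the functional -/
def Sup (d K : σ → ℕ) (γ : Gam σ) : Prop :=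
  ∀ t, (d t : ℤ) ∣ γ.1 t - K t

/-- the quotients -/
def lt (d K : σ → ℕ) (γ : Gam σ) (t : σ) : ℤ := (γ.1 t - K t) / d t

open Classical in
/-- the values of the functional on the monomials -/
noncomputable def val (d K : σ → ℕ) (g : σ → ℤ → k) (p c : ℤ → k) (γ : Gam σ) : k :=
  if Sup d K γ then (∏ t, g t (lt d K γ t)) * p (-γ.2 - ∑ t, lt d K γ t) * c (-γ.2) else 0

variable (d K : σ → ℕ) (g : σ → ℤ → k) (p c : ℤ → k)

theorem Sup_add {s : σ} (γ : Gam σ) (j : ℤ) :
    Sup d K (γ + dl d s j) ↔ Sup d K γ := by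
  unfold Sup
  refine forall_congr' fun t => ?_
  by_cases hts : t = s
  · subst hts
    have e2 : (γ + dl d t j).1 t - K t = (γ.1 t - K t) + d t := by simp [dl]; ring
    rw [e2]
    simp
  · have e2 : (γ + dl d s j).1 t = γ.1 t := by simp [dl, Pi.single_eq_of_ne hts]
    rw [e2]

theorem lt_add_self (hd : ∀ t, d t ≠ 0) {s : σ} (γ : Gam σ) (j : ℤ) :
    lt d K (γ + dl d s j) s = lt d K γ s + 1 := by
  unfold lt
  have e2 : (γ + dl d s j).1 s - K s = (γ.1 s - K s) + d s := by simp [dl]; ring
  rw [e2, Int.add_ediv_of_dvd_right (dvd_refl _), Int.ediv_self]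
  exact_mod_cast hd s

theorem lt_add_ne {s t : σ} (hst : t ≠ s) (γ : Gam σ) (j : ℤ) :
    lt d K (γ + dl d s j) t = lt d K γ t := by
  unfold lt
  have e2 : (γ + dl d s j).1 t = γ.1 t := by simp [dl, Pi.single_eq_of_ne hst]
  rw [e2]

theorem sum_lt_add (hd : ∀ t, d t ≠ 0) {s : σ} (γ : Gam σ) (j : ℤ) :
    ∑ t, lt d K (γ + dl d s j) t = ∑ t, lt d K γ t + 1 := by
  have hm := Finset.mem_univ s
  rw [← Finset.add_sum_erase _ _ hm, ← Finset.add_sum_erase _ (fun t => lt d K γ t) hm,
    lt_add_self d K hd, Finset.sum_congr rfl fun t ht =>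
      lt_add_ne d K (Finset.ne_of_mem_erase ht) γ j]
  ring

theorem prod_lt_ne {s : σ} (γ : Gam σ) (j : ℤ) :
    ∏ t ∈ Finset.univ.erase s, g t (lt d K (γ + dl d s j) t) =
      ∏ t ∈ Finset.univ.erase s, g t (lt d K γ t) :=
  Finset.prod_congr rfl fun t ht => by
    rw [lt_add_ne d K (Finset.ne_of_mem_erase ht) γ j]

theorem val_of (γ : Gam σ) (h : Sup d K γ) : val d K g p c γ =
    (∏ t, g t (lt d K γ t)) * p (-γ.2 - ∑ t, lt d K γ t) * c (-γ.2) := if_pos h

theorem val_not (γ : Gam σ) (h : ¬ Sup d K γ) : val d K g p c γ = 0 := if_neg h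

theorem val_base : val d K g p c (fun t => (K t : ℤ), 0) = (∏ t, g t 0) * p 0 * c 0 := by
  rw [val_of d K g p c _ (fun t => by simp)]
  have h : ∀ t ∈ Finset.univ, lt d K (fun t => (K t : ℤ), 0) t = 0 := by
    intro t ht
    simp [lt]
  rw [Finset.prod_congr rfl fun t ht => by rw [h t ht], Finset.sum_congr rfl h]
  simp

variable {b : σ → k} {A : σ → k} {α z : k}

theorem val_rel (hd : ∀ t, d t ≠ 0)
    (hg : ∀ t l, (d t : k) * b t * g t (l + 1) = (d t * l + A t) * g t l)
    (hc : ∀ m : ℤ, (α + m) * c (m + 1) = c m) {s : σ} (γ : Gam σ) :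
    ((γ.1 s : k) - K s + A s) * val d K g p c γ +
      (d s : k) * b s * (γ.2 - α) * val d K g p c (γ + dl d s (-1)) = 0 := by
  by_cases h : Sup d K γ
  · rw [val_of d K g p c γ h, val_of d K g p c _ ((Sup_add d K γ (-1)).2 h),
      sum_lt_add d K hd]
    have hm := Finset.mem_univ s
    rw [← Finset.mul_prod_erase _ (fun t => g t (lt d K (γ + dl d s (-1)) t)) hm,
      ← Finset.mul_prod_erase _ (fun t => g t (lt d K γ t)) hm,
      lt_add_self d K hd, prod_lt_ne d K g γ]
    set PP := ∏ t ∈ Finset.univ.erase s, g t (lt d K γ t)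
    set n := ∑ t, lt d K γ t
    have e1 : (γ + dl d s (-1)).2 = γ.2 - 1 := rfl
    have e2 : -(γ.2 - 1) - (n + 1) = -γ.2 - n := by ring
    have e3 : -(γ.2 - 1) = -γ.2 + 1 := by ring
    rw [e1, e2, e3]
    have h1 := hg s (lt d K γ s)
    have h2 := hc (-γ.2)
    have h3 : (γ.1 s : k) - K s = d s * lt d K γ s := by
      have := Int.mul_ediv_cancel' (h s)
      unfold lt
      have h4 := congrArg (Int.cast : ℤ → k) this
      push_cast at h4
      exact h4.symm
    rw [h3]
    push_cast at h2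
    linear_combination (γ.2 - α) * (PP * p (-γ.2 - n) * c (-γ.2 + 1)) * h1 -
      (d s * lt d K γ s + A s) * g s (lt d K γ s) * PP * p (-γ.2 - n) * h2
  · rw [val_not d K g p c γ h, val_not d K g p c _ (fun h' => h ((Sup_add d K γ _).1 h'))]
    ring

theorem val_tp (hd : ∀ t, d t ≠ 0) (di : σ → k) (hdi : ∀ t, (d t : k) * di t = 1)
    (hg : ∀ t l, (d t : k) * b t * g t (l + 1) = (d t * l + A t) * g t l)
    (hc : ∀ m : ℤ, (α + m) * c (m + 1) = c m) (hp : ∀ n : ℤ, p (n + 1) = (z + n) * p n)
    (hz : z = α - ∑ t, A t * di t) (γ : Gam σ) :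
    val d K g p c (γ + (0, 1)) - ∑ s, b s * val d K g p c (γ + dl d s 0) =
      val d K g p c γ := by
  have hS1 : Sup d K (γ + (0, 1)) ↔ Sup d K γ := by
    unfold Sup
    simp
  by_cases h : Sup d K γ
  · set n := -γ.2 - ∑ t, lt d K γ t with hn
    set PP := ∏ t, g t (lt d K γ t) with hPP
    have h1 : val d K g p c (γ + (0, 1)) = PP * p (n - 1) * c (-γ.2 - 1) := by
      rw [val_of d K g p c _ (hS1.2 h)]
      have e1 : ∀ t, lt d K (γ + (0, 1)) t = lt d K γ t := fun t => by simp [lt]
      have e2 : (γ + (0, 1)).2 = γ.2 + 1 := rfl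
      have e3 : -(γ.2 + 1) = -γ.2 - 1 := by ring
      rw [Finset.sum_congr rfl fun t _ => e1 t, Finset.prod_congr rfl fun t _ => by rw [e1 t],
        e2, e3, ← hPP]
      have e4 : -γ.2 - 1 - ∑ t, lt d K γ t = n - 1 := by rw [hn]; ring
      rw [e4]
    have h2 : ∀ s ∈ Finset.univ, b s * val d K g p c (γ + dl d s 0) =
        (lt d K γ s + A s * di s) * (PP * p (n - 1) * c (-γ.2)) := by
      intro s hm
      rw [val_of d K g p c _ ((Sup_add d K γ 0).2 h), sum_lt_add d K hd, hPP,
        ← Finset.mul_prod_erase _ (fun t => g t (lt d K (γ + dl d s 0) t)) hm,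
        ← Finset.mul_prod_erase _ (fun t => g t (lt d K γ t)) hm,
        lt_add_self d K hd, prod_lt_ne d K g γ]
      have e1 : (γ + dl d s 0).2 = γ.2 := by simp [dl]
      have e2 : -γ.2 - (∑ t, lt d K γ t + 1) = n - 1 := by rw [hn]; ring
      rw [e1, e2]
      have h3 := hg s (lt d K γ s)
      have h4 : b s * g s (lt d K γ s + 1) = (lt d K γ s + A s * di s) * g s (lt d K γ s) := by
        linear_combination di s * h3 -
          (b s * g s (lt d K γ s + 1) - lt d K γ s * g s (lt d K γ s)) * hdi s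
      linear_combination (∏ t ∈ Finset.univ.erase s, g t (lt d K γ t)) *
        p (n - 1) * c (-γ.2) * h4
    rw [h1, Finset.sum_congr rfl h2, ← Finset.sum_mul, val_of d K g p c γ h, ← hn, ← hPP]
    have h3 := hc (-γ.2 - 1)
    have h4 := hp (n - 1)
    rw [sub_add_cancel] at h3 h4
    have h5 : (n : k) = -γ.2 - ∑ t, (lt d K γ t : k) := by
      rw [hn]; push_cast; ring
    rw [Finset.sum_add_distrib, ← h3, h4, hz]
    push_cast
    linear_combination (-PP * p (n - 1) * c (-γ.2)) * h5
  · have h1 : ∀ s ∈ Finset.univ, b s * val d K g p c (γ + dl d s 0) = 0 := by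
      intro s hm
      rw [val_not d K g p c _ (fun h' => h ((Sup_add d K γ _).1 h')), mul_zero]
    rw [val_not d K g p c γ h, val_not d K g p c _ (fun h' => h (hS1.1 h')),
      Finset.sum_eq_zero h1, sub_zero]

/-- the functional -/
noncomputable def lam : BB k σ →ₗ[k] k := lin (val d K g p c)

theorem lam_mon (γ : Gam σ) : lam d K g p c (mon γ) = val d K g p c γ := lin_mon _ _

theorem lam_Th (hd : ∀ t, d t ≠ 0)
    (hg : ∀ t l, (d t : k) * b t * g t (l + 1) = (d t * l + A t) * g t l)
    (hc : ∀ m : ℤ, (α + m) * c (m + 1) = c m) {s : σ} (v : BB k σ) :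
    lam d K g p c (Th d b s v + (A s - K s) • v -
      (α * (d s * b s)) • (mon (dl d s (-1)) * v)) = 0 := by
  refine BB_ind (P := fun v => lam d K g p c (Th d b s v + (A s - K s) • v -
      (α * (d s * b s)) • (mon (dl d s (-1)) * v)) = 0) ?_ ?_ ?_ v
  · simp
  · intro v w hv hw
    have := congrArg₂ (· + ·) hv hw
    simp only [add_zero, ← map_add] at this
    rw [← this, map_add]
    congr 1
    rw [mul_add, smul_add, smul_add]
    abel
  · intro γ r
    have h := val_rel (s := s) d K g p c hd hg hc γ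
    rw [Derivation.map_smul, smul_comm _ r, mul_smul_comm, smul_comm _ r, ← smul_add, ← smul_sub,
      map_smul, Th_mon, mon_mul, add_comm (dl d s (-1)) γ, map_sub, map_add, map_add, map_smul,
      map_smul, map_smul, map_smul, lam_mon, lam_mon]
    simp only [smul_eq_mul]
    linear_combination r * h

theorem lam_tp (hd : ∀ t, d t ≠ 0) (di : σ → k) (hdi : ∀ t, (d t : k) * di t = 1)
    (hg : ∀ t l, (d t : k) * b t * g t (l + 1) = (d t * l + A t) * g t l)
    (hc : ∀ m : ℤ, (α + m) * c (m + 1) = c m) (hp : ∀ n : ℤ, p (n + 1) = (z + n) * p n)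
    (hz : z = α - ∑ t, A t * di t) (v : BB k σ) :
    lam d K g p c (tp d b * v) = lam d K g p c v := by
  refine BB_ind (P := fun v => lam d K g p c (tp d b * v) = lam d K g p c v) ?_ ?_ ?_ v
  · simp
  · intro v w hv hw
    rw [mul_add, map_add, map_add, hv, hw]
  · intro γ r
    rw [mul_smul_comm, map_smul, map_smul, tp, sub_mul, mon_mul, Finset.sum_mul, map_sub, map_sum,
      lam_mon, lam_mon, add_comm, ← val_tp d K g p c hd di hdi hg hc hp hz γ]
    congr 2
    refine Finset.sum_congr rfl fun t _ => ?_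
    rw [smul_mul_assoc, mon_mul, map_smul, lam_mon, smul_eq_mul, add_comm]

end Functional

end Pool.Agent.H63.VH
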