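import Pool.Agent.H63.VH.Chart

set_option autoImplicit false
set_option linter.unusedSectionVars false

/-! # The engine in a chart -/

namespace Pool.Agent.H63.VH

open PowerSeries

variable {k σ : Type} [CommRing k] [Algebra ℂ k] [Fintype σ] [DecidableEq σ] (e : σ → ℕ)
variable (he : ∀ t, e t ≠ 0) (D : ℕ) (d : σ → ℕ) (b : σ → ℂ) (ξ : σ → MvPowerSeries σ ℂ)

/-- the pencil `f0 + t * f1` -/
noncomputable def pen (f0 f1 : MvPolynomial σ ℂ) : MvPolynomial σ (Polynomial k) :=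
  MvPolynomial.map cst f0 + MvPolynomial.C Polynomial.X * MvPolynomial.map cst f1

theorem phi_pen (Z : Gam σ → Prop) (hZ : Adm Z) (hZ' : ∀ δ, Z δ → Z ((0, -1) + δ))
    (f0 f1 : MvPolynomial σ ℂ) (a : σ → ℕ) (h0 h1 : MvPowerSeries σ ℂ)
    (hf0 : MvPolynomial.aeval ξ f0 = (∏ t, MvPowerSeries.X t ^ a t) * h0)
    (hf1 : MvPolynomial.aeval ξ f1 = (∏ t, MvPowerSeries.X t ^ a t) * h1)
    (hh1 : MvPowerSeries.constantCoeff h1 = 1)
    (hd : ∀ t, d t ≠ 0) (hD : ∀ t, e t * d t = D)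
    (hb' : ∀ t, MvPowerSeries.coeff (Finsupp.single t (d t)) h0 = b t)
    (hh : ∀ μ, MvPowerSeries.coeff μ h0 ≠ 0 →
      D < wt e μ ∨ ∃ t, μ = Finsupp.single t (d t)) :
    ∃ y ∈ (Rp Z : Subalgebra k (BB k σ)⟦X⟧), constantCoeff y = 0 ∧
      phi e he D d (fun t => algebraMap ℂ k (b t)) ξ (pen f0 f1) =
      X ^ (∑ t, e t * a t + D) * (C (mon (fun t => (a t : ℤ), 1)) * (1 + y)) := by
  obtain ⟨r, hr, hr'⟩ := SS_low (k := k) e Z hZ he d b hd D hD h0 hb' hh
  obtain ⟨r1, hr1, hr1'⟩ := SS_high (k := k) e Z hZ he (h1 - 1) 1 (by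
    intro μ hμ
    by_contra hlt
    have h2 : wt e μ = 0 := by omega
    have h3 : μ = 0 := by
      ext t
      rw [wt, Finset.sum_eq_zero_iff] at h2
      rcases Nat.mul_eq_zero.1 (h2 t (Finset.mem_univ t)) with h' | h'
      · exact absurd h' (he t)
      · exact h'
    apply hμ
    rw [h3, MvPowerSeries.coeff_zero_eq_constantCoeff_apply, map_sub, hh1, map_one, sub_self])
  set b' : σ → k := fun t => algebraMap ℂ k (b t) with hb1
  have h4 : SS e he h1 = 1 + X * r1 := by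
    rw [map_sub, map_one, pow_one] at hr1'
    linear_combination hr1'
  refine ⟨X * (C (mon (0, -1)) * (r + C (tp d b') * r1)), ?_, ?_, ?_⟩
  · refine (Rp Z).mul_mem (X_mem_Rp Z) ((Rp Z).mul_mem (C_mem_Rp Z _ (mon_mem_Bp Z _ hZ')) ?_)
    exact (Rp Z).add_mem hr ((Rp Z).mul_mem (C_mem_Rp Z _ (tp_mem_Bp Z hZ d b')) hr1)
  · rw [map_mul, constantCoeff_X, zero_mul]
  · have h5 : C (mon (fun t => (a t : ℤ), 1)) =
        (C (mon (fun t => (a t : ℤ), 0)) * C (mon (0, 1)) : (BB k σ)⟦X⟧) := by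
      rw [← map_mul, mon_mul]
      have : ((fun t => (a t : ℤ), 0) + (0, 1) : Gam σ) = (fun t => (a t : ℤ), 1) := by
        ext t <;> simp
      rw [this]
    have h6 : (C (mon (0, 1)) * C (mon (0, -1)) : (BB k σ)⟦X⟧) = 1 := by
      rw [← map_mul, mon_mul]
      have : ((0, 1) + (0, -1) : Gam σ) = 0 := by ext t <;> simp
      rw [this, mon_zero, map_one]
    have h7 : C (tp d b') = (C (mon (0, 1)) - C (∑ t, b' t • mon (dl d t 0)) : (BB k σ)⟦X⟧) := by
      rw [tp, map_sub]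
    rw [pen, map_add, map_mul, phi_map, phi_map, phi_C, hf0, hf1, map_mul, map_mul, SS_prod,
      hr', h4, psi, Polynomial.aeval_X, h5, pow_add]
    linear_combination (C (mon (fun t => (a t : ℤ), 0)) * X ^ (∑ t, e t * a t) * X ^ D) * h7 -
      (C (mon (fun t => (a t : ℤ), 0)) * X ^ (∑ t, e t * a t) * X ^ D * X *
        (r + C (tp d b') * r1)) * h6

/-- the twisted functional -/
noncomputable def TT (K : σ → ℕ) (g : σ → ℤ → k) (p c : ℤ → k) (ρ : (BB k σ)⟦X⟧) :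
    (BB k σ)⟦X⟧ →+ k⟦X⟧ :=
  (PL (lam d K g p c)).comp (AddMonoidHom.mulRight ρ)

theorem TT_apply (K : σ → ℕ) (g : σ → ℤ → k) (p c : ℤ → k) (ρ u : (BB k σ)⟦X⟧) :
    TT d K g p c ρ u = PL (lam d K g p c) (u * ρ) := rfl

theorem coeff_algebraMap_mul (z : k) (v : (BB k σ)⟦X⟧) (n : ℕ) :
    coeff n (algebraMap k (BB k σ)⟦X⟧ z * v) = z • coeff n v := by
  rw [← Algebra.smul_def, PowerSeries.coeff_smul]

theorem TT_twist (β : σ → k) (K a : σ → ℕ) (g : σ → ℤ → k) (p c : ℤ → k) (y y' ρ : (BB k σ)⟦X⟧)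
    (s : k) (hd : ∀ t, d t ≠ 0) (hy' : (1 + y) * y' = 1)
    (hρ : ∀ D' : Derivation k (BB k σ) (BB k σ), (1 + y) * PD D' ρ = s • (ρ * PD D' y))
    (hg : ∀ t l, (d t : k) * β t * g t (l + 1) = (d t * l + (K t + a t * s)) * g t l)
    (hc : ∀ m : ℤ, (-s + m) * c (m + 1) = c m) (t : σ) (u : (BB k σ)⟦X⟧) :
    TT d K g p c ρ (PD (Th d β t) u + (algebraMap k (BB k σ)⟦X⟧ s *
      (PD (Th d β t) (C (mon (fun t => (a t : ℤ), 1)) * (1 + y)) *
        (C (mon (fun t => -(a t : ℤ), -1)) * y'))) * u) = 0 := by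
  obtain ⟨V, hV⟩ : ∃ V, V = u * ρ := ⟨_, rfl⟩
  obtain ⟨G0, hG0⟩ : ∃ G0 : (BB k σ)⟦X⟧, G0 = C (mon (fun t => (a t : ℤ), 1)) := ⟨_, rfl⟩
  obtain ⟨H0, hH0⟩ : ∃ H0 : (BB k σ)⟦X⟧, H0 = C (mon (fun t => -(a t : ℤ), -1)) := ⟨_, rfl⟩
  obtain ⟨E, hE⟩ : ∃ E, E = Th d β t := ⟨_, rfl⟩
  obtain ⟨M, hM⟩ : ∃ M : BB k σ, M = ((d t : k) * β t) • mon (dl d t (-1)) := ⟨_, rfl⟩
  rw [← hG0, ← hH0, ← hE]
  have hGH : G0 * H0 = 1 := by
    rw [hG0, hH0, ← map_mul, mon_mul]
    have : ((fun t => (a t : ℤ), 1) + (fun t => -(a t : ℤ), -1) : Gam σ) = 0 := by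
      ext t <;> simp
    rw [this, mon_zero, map_one]
  have hEG : PD E G0 = (a t : (BB k σ)⟦X⟧) * G0 + C M * G0 := by
    rw [hG0, hM, PD_C, hE, Th_mon, map_add, ← map_mul, smul_mul_assoc, mon_mul, mul_comm,
      add_comm (dl d t (-1))]
    congr 1
    · have h1 : ((((fun t => (a t : ℤ), 1) : Gam σ).1 t : ℤ) : k) •
          (mon (fun t => (a t : ℤ), 1) : BB k σ) = (a t : BB k σ) * mon (fun t => (a t : ℤ), 1) := by
        rw [Algebra.smul_def]
        simp
      rw [h1, map_mul, map_natCast, mul_comm]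
    · simp
  have hEρ : PD E ρ = algebraMap k (BB k σ)⟦X⟧ s * ρ * PD E y * y' := by
    have h1 := hρ E
    rw [Algebra.smul_def] at h1
    linear_combination y' * h1 - PD E ρ * hy'
  have hEV : PD E V = PD E u * ρ + u * PD E ρ := by
    rw [hV, Derivation.leibniz]
    simp only [smul_eq_mul]
    ring
  have hEG1 : PD E (G0 * (1 + y)) = PD E G0 * (1 + y) + G0 * PD E y := by
    rw [Derivation.leibniz, map_add, Derivation.map_one_eq_zero, zero_add]
    simp only [smul_eq_mul]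
    ring
  have key : (PD E u + (algebraMap k (BB k σ)⟦X⟧ s * (PD E (G0 * (1 + y)) * (H0 * y'))) * u) *
      ρ = PD E V + algebraMap k (BB k σ)⟦X⟧ (s * a t) * V +
        algebraMap k (BB k σ)⟦X⟧ s * (C M * V) := by
    rw [hEV, hEρ, hEG1, hEG, hV, map_mul, map_natCast]
    linear_combination (u * ρ * algebraMap k (BB k σ)⟦X⟧ s *
      (((a t : (BB k σ)⟦X⟧) + C M) * (1 + y) * y' + PD E y * y')) * hGH +
      (u * ρ * algebraMap k (BB k σ)⟦X⟧ s * ((a t : (BB k σ)⟦X⟧) + C M)) * hy'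
  rw [TT_apply, key]
  refine PL_zero _ _ fun n => ?_
  have h3 : coeff n (PD E V + algebraMap k (BB k σ)⟦X⟧ (s * a t) * V +
        algebraMap k (BB k σ)⟦X⟧ s * (C M * V)) =
      E (coeff n V) + (s * a t) • coeff n V +
        (s * (d t * β t)) • (mon (dl d t (-1)) * coeff n V) := by
    rw [map_add, map_add, coeff_PD, coeff_algebraMap_mul, coeff_algebraMap_mul, coeff_C_mul, hM,
      smul_mul_assoc, smul_smul]
  rw [h3]
  have h5 := lam_Th (A := fun t => K t + a t * s) (α := -s) d K g p c hd (fun t l => hg t l) hc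
    (s := t) (coeff n V)
  have e1 : s * a t = K t + a t * s - K t := by ring
  have e2 : (s * (d t * β t)) • (mon (dl d t (-1)) * coeff n V) =
      -((-s * (d t * β t)) • (mon (dl d t (-1)) * coeff n V)) := by
    rw [← neg_smul, neg_mul, neg_neg]
  rw [e1, e2, ← sub_eq_add_neg, hE]
  exact h5

theorem TT_X_pow (K : σ → ℕ) (g : σ → ℤ → k) (p c : ℤ → k) (ρ u : (BB k σ)⟦X⟧) (m : ℕ) :
    TT d K g p c ρ (X ^ m * u) = X ^ m * TT d K g p c ρ u := by
  rw [TT_apply, TT_apply, mul_assoc, PL_X_pow]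

theorem TT_C (K : σ → ℕ) (g : σ → ℤ → k) (p c : ℤ → k) (ρ u : (BB k σ)⟦X⟧) (z : k) :
    TT d K g p c ρ (algebraMap k (BB k σ)⟦X⟧ z * u) =
      algebraMap k k⟦X⟧ z * TT d K g p c ρ u := by
  rw [TT_apply, TT_apply, mul_assoc, ← Algebra.smul_def, ← Algebra.smul_def]
  ext n
  rw [coeff_PL, PowerSeries.coeff_smul, PowerSeries.coeff_smul, map_smul, coeff_PL]

theorem TT_psi (β : σ → k) (K : σ → ℕ) (g : σ → ℤ → k) (p c : ℤ → k) (ρ : (BB k σ)⟦X⟧)
    (htp : ∀ v, lam d K g p c (tp d β * v) = lam d K g p c v) (Q : Polynomial k)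
    (u : (BB k σ)⟦X⟧) : TT d K g p c ρ (psi D d β Q * u) =
      Polynomial.aeval (X ^ D : k⟦X⟧) Q * TT d K g p c ρ u := by
  have h1 : ∀ u, TT d K g p c ρ (X ^ D * C (tp d β) * u) = X ^ D * TT d K g p c ρ u := by
    intro u
    rw [mul_assoc, TT_X_pow]
    congr 1
    rw [TT_apply, TT_apply, mul_assoc]
    ext n
    rw [coeff_PL, coeff_PL, coeff_C_mul, htp]
  induction Q using Polynomial.induction_on generalizing u with
  | C a =>
    rw [psi, Polynomial.aeval_C, Polynomial.aeval_C, TT_C]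
  | add P Q hP hQ =>
    rw [map_add, map_add, add_mul, map_add, hP, hQ, add_mul]
  | monomial n a ih =>
    have e1 : psi D d β (Polynomial.C a * Polynomial.X ^ (n + 1)) =
        psi D d β (Polynomial.C a * Polynomial.X ^ n) * (X ^ D * C (tp d β)) := by
      rw [pow_succ, ← mul_assoc, map_mul (psi D d β)]
      congr 1
      exact Polynomial.aeval_X _
    have e2 : Polynomial.aeval (X ^ D : k⟦X⟧) (Polynomial.C a * Polynomial.X ^ (n + 1)) =
        Polynomial.aeval (X ^ D : k⟦X⟧) (Polynomial.C a * Polynomial.X ^ n) * X ^ D := by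
      rw [pow_succ, ← mul_assoc, map_mul (Polynomial.aeval (X ^ D : k⟦X⟧)) (_ * _),
        Polynomial.aeval_X]
    rw [e1, e2, mul_assoc, ih, h1, mul_assoc]

theorem aeval_X_pow_eq_zero (hD : D ≠ 0) (Q : Polynomial k)
    (h : Polynomial.aeval (X ^ D : k⟦X⟧) Q = 0) : Q = 0 := by
  have h1 : Polynomial.aeval (X ^ D : k⟦X⟧) Q = ((Polynomial.expand k D Q : Polynomial k) : k⟦X⟧) := by
    rw [Polynomial.expand_eq_comp_X_pow]
    have h2 : ∀ P : Polynomial k, (P : k⟦X⟧) = Polynomial.aeval (X : k⟦X⟧) P := by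
      intro P
      induction P using Polynomial.induction_on' with
      | add p q hp hq => rw [Polynomial.coe_add, hp, hq, map_add]
      | monomial n a =>
        rw [Polynomial.coe_monomial, Polynomial.aeval_monomial, PowerSeries.algebraMap_apply]
        ext m
        rw [coeff_monomial, coeff_C_mul, coeff_X_pow]
        split_ifs <;> simp
    rw [h2, Polynomial.aeval_comp, map_pow, Polynomial.aeval_X]
  rw [h1, ← Polynomial.coe_zero] at h
  exact (Polynomial.expand_eq_zero (Nat.pos_of_ne_zero hD)).1 (Polynomial.coe_injective k h)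

theorem final_step {R W : Type} [CommRing R] [AddCommGroup W]
    (φ : MvPolynomial σ (Polynomial k) →+* R) (f : MvPolynomial σ (Polynomial k))
    (s : Polynomial k) (x G H J : R) (M : ℕ) (hf : φ f = x ^ M * G) (hGH : G * H = 1)
    (T : R →+ W) (hTx : ∀ m u, T u = 0 → T (x ^ m * u) = 0)
    (heng : ∀ w q, T (J * φ q * (φ (VG.qq f s w) * G * H ^ w.length)) = 0)
    (N : ℕ) (S : Finset (List (σ ⊕ σ))) (hS : ∀ w ∈ S, w.length ≤ N)
    (r : List (σ ⊕ σ) → Polynomial k) (Q : Polynomial k)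
    (heq : MvPolynomial.C Q * f ^ N = ∑ w ∈ S, MvPolynomial.C (r w) *
      f ^ (N + 1 - w.length) * VG.qq f s w) :
    T (x ^ (M * N) * (φ (MvPolynomial.C Q) * J)) = 0 := by
  have h2 := congrArg (fun v => J * (φ v * H ^ N)) heq
  simp only [map_mul, map_sum, map_pow, hf] at h2
  have h3 : J * (φ (MvPolynomial.C Q) * (x ^ M * G) ^ N * H ^ N) =
      x ^ (M * N) * (φ (MvPolynomial.C Q) * J) := by
    have : (G * H) ^ N = 1 := by rw [hGH, one_pow]
    rw [mul_pow, ← pow_mul]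
    linear_combination (J * φ (MvPolynomial.C Q) * x ^ (M * N)) * this
  have h4 : ∀ w ∈ S, φ (MvPolynomial.C (r w)) * (x ^ M * G) ^ (N + 1 - w.length) *
      φ (VG.qq f s w) * H ^ N =
      x ^ (M * (N + 1 - w.length)) * (φ (MvPolynomial.C (r w)) *
        (φ (VG.qq f s w) * G * H ^ w.length)) := by
    intro w hw
    have hwN := hS w hw
    obtain ⟨m, hm⟩ : ∃ m, N = w.length + m := ⟨N - w.length, by omega⟩
    have e1 : N + 1 - w.length = m + 1 := by omega
    have : (G * H) ^ m = 1 := by rw [hGH, one_pow]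
    rw [e1, hm, mul_pow, ← pow_mul, pow_add H, pow_succ G]
    linear_combination (x ^ (M * (m + 1)) * φ (MvPolynomial.C (r w)) *
        (φ (VG.qq f s w) * G * H ^ w.length)) * this
  rw [← h3, h2, Finset.sum_mul, Finset.mul_sum, map_sum]
  refine Finset.sum_eq_zero fun w hw => ?_
  rw [h4 w hw]
  have h7 : J * (x ^ (M * (N + 1 - w.length)) * (φ (MvPolynomial.C (r w)) *
      (φ (VG.qq f s w) * G * H ^ w.length))) =
      x ^ (M * (N + 1 - w.length)) * (J * φ (MvPolynomial.C (r w)) *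
        (φ (VG.qq f s w) * G * H ^ w.length)) := by ring
  rw [h7]
  exact hTx _ _ (heng w _)

end Pool.Agent.H63.VH
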