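import Pool.Agent.H63.VH.Main1

set_option autoImplicit false
set_option linter.unusedSectionVars false

/-! # The engine in a chart: the core -/

namespace Pool.Agent.H63.VH

open PowerSeries

variable {k σ : Type} [CommRing k] [Algebra ℂ k] [Fintype σ] [DecidableEq σ] (e : σ → ℕ)
variable (he : ∀ t, e t ≠ 0) (D : ℕ) (d : σ → ℕ) (β : σ → k) (ξ : σ → MvPowerSeries σ ℂ)

include he in
theorem chart_core (κ a : σ → ℕ) (U : MvPowerSeries σ ℂ)
    (hJ : (Matrix.of fun t i => MvPowerSeries.pderiv ℂ t (ξ i)).det =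
      (∏ t, MvPowerSeries.X t ^ κ t) * U)
    (F : MvPolynomial σ (Polynomial k)) (M : ℕ) (y y' ρ : (BB k σ)⟦X⟧)
    (hF : phi e he D d β ξ F = X ^ M * (C (mon (fun t => (a t : ℤ), 1)) * (1 + y)))
    (s : k) (hd : ∀ t, d t ≠ 0) (hy' : (1 + y) * y' = 1)
    (hρ : ∀ D' : Derivation k (BB k σ) (BB k σ), (1 + y) * PD D' ρ = s • (ρ * PD D' y))
    (g : σ → ℤ → k) (p c : ℤ → k)
    (hg : ∀ t l, (d t : k) * β t * g t (l + 1) = (d t * l + (((κ t + 1 : ℕ) : k) + a t * s)) * g t l)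
    (hc : ∀ m : ℤ, (-s + m) * c (m + 1) = c m)
    (htp : ∀ v, lam d (fun t => κ t + 1) g p c (tp d β * v) = lam d (fun t => κ t + 1) g p c v)
    (hzero : ∀ q, PL (lam d (fun t => κ t + 1) g p c)
      (C (mon (fun t => ((κ t + 1 : ℕ) : ℤ) + a t, 1)) * (SS e he U * phi e he D d β ξ q *
        (ρ * (1 + y)))) = 0)
    (N : ℕ) (S : Finset (List (σ ⊕ σ))) (hS : ∀ w ∈ S, w.length ≤ N)
    (r : List (σ ⊕ σ) → Polynomial k) (Q : Polynomial k)
    (heq : MvPolynomial.C Q * F ^ N = ∑ w ∈ S, MvPolynomial.C (r w) *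
      F ^ (N + 1 - w.length) * VG.qq F (Polynomial.C s) w) :
    Polynomial.aeval (X ^ D : k⟦X⟧) Q * PL (lam d (fun t => κ t + 1) g p c)
      (C (mon (fun t => ((κ t + 1 : ℕ) : ℤ), 0)) * SS e he U * ρ) = 0 := by
  obtain ⟨K, hK⟩ : ∃ K : σ → ℕ, K = fun t => κ t + 1 := ⟨_, rfl⟩
  obtain ⟨G, hG⟩ : ∃ G : (BB k σ)⟦X⟧, G = C (mon (fun t => (a t : ℤ), 1)) * (1 + y) := ⟨_, rfl⟩
  obtain ⟨H, hH⟩ : ∃ H : (BB k σ)⟦X⟧, H = C (mon (fun t => -(a t : ℤ), -1)) * y' := ⟨_, rfl⟩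
  obtain ⟨J, hJJ⟩ : ∃ J : (BB k σ)⟦X⟧, J = (Matrix.of fun t i =>
    PD (Th d β t) (phi e he D d β ξ (MvPolynomial.X i))).det := ⟨_, rfl⟩
  have hJ' : J = X ^ (∑ t, e t * (κ t + 1)) *
      (C (mon (fun t => ((κ t + 1 : ℕ) : ℤ), 0)) * SS e he U) := by
    rw [hJJ]; exact jac_phi e he D d β ξ κ U hJ
  rw [← hG] at hF
  rw [← hK] at htp hzero ⊢
  obtain ⟨T, hT⟩ : ∃ T, T = TT d K g p c ρ := ⟨_, rfl⟩
  have hGH : G * H = 1 := by
    have h1 : (C (mon (fun t => (a t : ℤ), 1)) * C (mon (fun t => -(a t : ℤ), -1)) :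
        (BB k σ)⟦X⟧) = 1 := by
      rw [← map_mul, mon_mul]
      have : ((fun t => (a t : ℤ), 1) + (fun t => -(a t : ℤ), -1) : Gam σ) = 0 := by
        ext t <;> simp
      rw [this, mon_zero, map_one]
    rw [hG, hH]
    linear_combination ((1 + y) * y') * h1 + hy'
  have hTX : ∀ m u, T u = 0 → T (X ^ m * u) = 0 := by
    intro m u hu
    rw [hT, TT_X_pow, ← hT, hu, mul_zero]
  have hzero' : ∀ q, T (J * phi e he D d β ξ q * G) = 0 := by
    intro q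
    have h1 : J * phi e he D d β ξ q * G * ρ = X ^ (∑ t, e t * (κ t + 1)) *
        (C (mon (fun t => ((κ t + 1 : ℕ) : ℤ) + a t, 1)) * (SS e he U * phi e he D d β ξ q *
        (ρ * (1 + y)))) := by
      have h2 : (C (mon (fun t => ((κ t + 1 : ℕ) : ℤ) + a t, 1)) : (BB k σ)⟦X⟧) =
          C (mon (fun t => ((κ t + 1 : ℕ) : ℤ), 0)) * C (mon (fun t => (a t : ℤ), 1)) := by
        rw [← map_mul, mon_mul]
        rfl
      rw [hJ', hG, h2]
      ring
    rw [hT, TT_apply, h1, PL_X_pow, hzero q, mul_zero]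
  have hCz : phi e he D d β ξ (MvPolynomial.C (Polynomial.C s)) =
      algebraMap k (BB k σ)⟦X⟧ s := by
    rw [phi_C, psi, Polynomial.aeval_C]
  have heng : ∀ w q, T (J * phi e he D d β ξ q *
      (phi e he D d β ξ (VG.qq F (Polynomial.C s) w) * G * H ^ w.length)) = 0 := by
    intro w q
    rw [hJJ]
    refine engine (fun t => (PD (Th d β t)).restrictScalars ℂ)
      (fun s t u => PD_comm _ _ (Th_comm d β s t) u) (phi e he D d β ξ) (phi_der e he D d β ξ)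
      F (Polynomial.C s) _ hCz (X ^ M) G H hF hGH
      (fun t => PD_X_pow (Th d β t) M) T (hTX _) (fun t u => ?_) (fun q => ?_) w q
    · rw [hT, hG, hH]
      refine TT_twist d β K a g p c y y' ρ s hd hy' hρ (fun t l => ?_) hc t u
      rw [hK]
      exact hg t l
    · have := hzero' q
      rw [hJJ] at this
      exact this
  have h5 := final_step (phi e he D d β ξ) F (Polynomial.C s) X G H J _ hF hGH T hTX
    heng N S hS r Q heq
  rw [hT, TT_X_pow, phi_C, TT_psi D d β K g p c ρ htp, hJ', TT_X_pow, TT_apply] at h5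
  have h6 : ∀ (m : ℕ) (v : k⟦X⟧), X ^ m * v = 0 → v = 0 := by
    intro m v hv
    ext n
    have := congrArg (coeff (n + m)) hv
    rwa [coeff_X_pow_mul, map_zero] at this
  have h7 := h6 _ _ h5
  have h8 : X ^ (∑ t, e t * (κ t + 1)) * (Polynomial.aeval (X ^ D : k⟦X⟧) Q *
      PL (lam d K g p c) (C (mon (fun t => ((κ t + 1 : ℕ) : ℤ), 0)) * SS e he U * ρ)) = 0 := by
    rw [← h7]
    ring
  exact h6 _ _ h8

/-- the exponents `≥ K t + 1` for `t ∈ T` -/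
def ZA (K : σ → ℕ) (T : Finset σ) (γ : Gam σ) : Prop := ∀ t ∈ T, (K t : ℤ) + 1 ≤ γ.1 t

theorem ZA_adm (K : σ → ℕ) (T : Finset σ) : Adm (ZA K T) := by
  intro γ δ h1 _ h3 t ht
  have h4 := h1 t
  have h5 := h3 t ht
  have : (γ + δ).1 t = γ.1 t + δ.1 t := rfl
  omega

theorem ZA_eta (K : σ → ℕ) (T : Finset σ) (δ : Gam σ) (h : ZA K T δ) : ZA K T ((0, -1) + δ) := by
  intro t ht
  have h5 := h t ht
  have : ((0, -1) + δ : Gam σ).1 t = δ.1 t := by simp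
  omega

theorem ZB_adm (K : σ → ℕ) (T : Finset σ) : Adm fun γ => ZA K T γ ∧ 1 ≤ γ.2 := by
  rintro γ δ h1 h2 ⟨h3, h4⟩
  refine ⟨ZA_adm K T γ δ h1 h2 h3, ?_⟩
  have : (γ + δ).2 = γ.2 + δ.2 := rfl
  omega

/-- the vanishing of the functional, first case -/
theorem zero_A (K : σ → ℕ) (T : Finset σ) (g : σ → ℤ → k) (p c : ℤ → k)
    (hval : ∀ γ, ZA K T γ → val d K g p c γ = 0) (γ0 : Gam σ) (hγ0 : ZA K T γ0)
    (u : (BB k σ)⟦X⟧) (hu : u ∈ Rp (ZA K T)) :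
    PL (lam d K g p c) (C (mon γ0) * u) = 0 := by
  refine PL_zero _ _ fun n => ?_
  rw [coeff_C_mul, mul_comm]
  have h1 := lam_Ip (ZA K T) (⊥ : Ideal k) d K g p c (fun γ hγ => by
    rw [hval γ hγ]; exact Submodule.zero_mem _) _ (hu n (mon γ0) (Submodule.subset_span
      ⟨γ0, hγ0, rfl⟩))
  exact (Submodule.mem_bot k).1 h1

/-- the vanishing of the functional, second case -/
theorem zero_B (K : σ → ℕ) (T : Finset σ) (g : σ → ℤ → k) (p c : ℤ → k) (ε : k)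
    (hval1 : ∀ γ, ZA K T γ → ε * val d K g p c γ = 0)
    (hval2 : ∀ γ, ZA K T γ → 1 ≤ γ.2 → val d K g p c γ = 0) (γ0 : Gam σ) (hγ0 : ZA K T γ0)
    (hγ0' : 1 ≤ γ0.2) (u w : (BB k σ)⟦X⟧) (hu : u ∈ Rp (ZA K T))
    (hu' : u ∈ Rp fun γ => ZA K T γ ∧ 1 ≤ γ.2) (hw : w ∈ Rp (ZA K T)) :
    PL (lam d K g p c) (C (mon γ0) * (u * (1 + ε • w))) = 0 := by
  refine PL_zero _ _ fun n => ?_
  have h0 : u * (1 + ε • w) = u + ε • (u * w) := by
    rw [mul_add, mul_one, mul_smul_comm]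
  rw [coeff_C_mul, mul_comm, h0, map_add, PowerSeries.coeff_smul, add_mul, smul_mul_assoc,
    map_add, map_smul]
  have h1 := lam_Ip (fun γ => ZA K T γ ∧ 1 ≤ γ.2) (⊥ : Ideal k) d K g p c (fun γ hγ => by
    rw [hval2 γ hγ.1 hγ.2]; exact Submodule.zero_mem _) _ (hu' n (mon γ0) (Submodule.subset_span
      ⟨γ0, ⟨hγ0, hγ0'⟩, rfl⟩))
  have h2 := lam_Ip (ZA K T) (Ideal.span {x | ε * x = 0} : Ideal k) d K g p c (fun γ hγ =>
    Ideal.subset_span (hval1 γ hγ)) _ ((Rp (ZA K T)).mul_mem hu hw n (mon γ0)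
      (Submodule.subset_span ⟨γ0, hγ0, rfl⟩))
  have h3 : ∀ x ∈ (Ideal.span {x | ε * x = 0} : Ideal k), ε * x = 0 := by
    intro x hx
    induction hx using Submodule.span_induction with
    | mem x hx => exact hx
    | zero => rw [mul_zero]
    | add x y _ _ hx hy => rw [mul_add, hx, hy, add_zero]
    | smul r x _ hx => rw [smul_eq_mul, mul_left_comm, hx, mul_zero]
  rw [(Submodule.mem_bot k).1 h1, smul_eq_mul, h3 _ h2, add_zero]

/-- products with many factors divisible by `ε` -/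
theorem prod_eps (ε : k) (T : Finset σ) (f : σ → k) (h : ∀ t ∈ T, ∃ x, f t = ε * x) :
    ∃ x, ∏ t, f t = ε ^ T.card * x := by
  choose! x hx using h
  refine ⟨(∏ t ∈ T, x t) * ∏ t ∈ Finset.univ \ T, f t, ?_⟩
  rw [← Finset.prod_sdiff (Finset.subset_univ T), Finset.prod_congr rfl hx,
    Finset.prod_mul_distrib, Finset.prod_const]
  ring

theorem lt_pos (K : σ → ℕ) (hd : ∀ t, d t ≠ 0) (γ : Gam σ) (h : Sup d K γ) (t : σ)
    (ht : (K t : ℤ) + 1 ≤ γ.1 t) : 1 ≤ lt d K γ t := by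
  have h1 := h t
  unfold lt
  obtain ⟨q, hq⟩ := h1
  have hd' : (0 : ℤ) < d t := by exact_mod_cast Nat.pos_of_ne_zero (hd t)
  rw [hq, Int.mul_ediv_cancel_left _ hd'.ne']
  by_contra hlt
  have h2 : q ≤ 0 := by omega
  have h3 : (d t : ℤ) * q ≤ 0 := mul_nonpos_of_nonneg_of_nonpos hd'.le h2
  omega

theorem lt_nonneg (K : σ → ℕ) (γ : Gam σ) (t : σ)
    (ht : (K t : ℤ) ≤ γ.1 t) : 0 ≤ lt d K γ t := by
  unfold lt
  exact Int.ediv_nonneg (by omega) (by omega)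

/-- `g t l` is divisible by `ε` for `l ≥ 1` -/
theorem g_eps (ε : k) (B : k) (hB : IsUnit B) (g : ℤ → k) (dd : ℕ) (A : k) (hA : ∃ x, A = ε * x)
    (hg : ∀ l : ℤ, B * g (l + 1) = (dd * l + A) * g l) (l : ℤ) (hl : 1 ≤ l) :
    ∃ x, g l = ε * x := by
  obtain ⟨B', hB'⟩ := hB.exists_right_inv
  obtain ⟨n, rfl⟩ : ∃ n : ℕ, l = n + 1 := ⟨(l - 1).toNat, by omega⟩
  induction n with
  | zero =>
    obtain ⟨x, hx⟩ := hA
    refine ⟨x * g 0 * B', ?_⟩
    have := hg 0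
    simp only [Nat.cast_zero, zero_add] at this ⊢
    push_cast at this
    linear_combination B' * this - g 1 * hB' + B' * g 0 * hx
  | succ n ih =>
    obtain ⟨x, hx⟩ := ih (by omega)
    refine ⟨(dd * (n + 1) + A) * x * B', ?_⟩
    have := hg (n + 1)
    push_cast at this hx ⊢
    linear_combination B' * this - g (n + 1 + 1) * hB' + B' * (dd * (n + 1) + A) * hx

/-- `c m` is divisible by `ε` for `m ≤ -1` if `s = -1 + ε * x` -/
theorem c_eps (ε x : k) (c : ℤ → k) (hc : ∀ m : ℤ, (-(-1 + ε * x) + m) * c (m + 1) = c m)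
    (m : ℤ) (hm : m ≤ -1) : ∃ y, c m = ε * y := by
  obtain ⟨n, rfl⟩ : ∃ n : ℕ, m = -n - 1 := ⟨(-m - 1).toNat, by omega⟩
  induction n with
  | zero =>
    refine ⟨-x * c 0, ?_⟩
    have := hc (-1)
    simp only [Nat.cast_zero, neg_zero, zero_sub]
    push_cast at this
    linear_combination -this
  | succ n ih =>
    obtain ⟨y, hy⟩ := ih (by omega)
    refine ⟨(-(-1 + ε * x) + (-(n + 1) - 1)) * y, ?_⟩
    have := hc (-(n + 1) - 1)
    have e : (-((n : ℤ) + 1) - 1 + 1) = -n - 1 := by ring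
    rw [e, hy] at this
    push_cast at this ⊢
    linear_combination -this

end Pool.Agent.H63.VH
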