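import Pool.Agent.H63.VH.Main2

set_option autoImplicit false
set_option linter.unusedSectionVars false

/-! # The engine in a chart: multiplicities -/

namespace Pool.Agent.H63.VH

open PowerSeries

variable {k σ : Type} [CommRing k] [Algebra ℂ k] [Fintype σ] [DecidableEq σ]

/-- the number `z` of the recursion -/
theorem zz_eq (a κ d : σ → ℕ) (s0 : ℂ) (ε : k) :
    -(algebraMap ℂ k s0 + ε) - ∑ t, (((κ t + 1 : ℕ) : k) + a t * (algebraMap ℂ k s0 + ε)) *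
      algebraMap ℂ k (d t : ℂ)⁻¹ =
    algebraMap ℂ k (-s0 - ∑ t, (((κ t + 1 : ℕ) : ℂ) + a t * s0) / d t) +
      ε * (-1 - ∑ t, a t * algebraMap ℂ k (d t : ℂ)⁻¹) := by
  rw [map_sub, map_neg, map_sum, mul_sub, Finset.mul_sum]
  have h1 : ∀ t, (((κ t + 1 : ℕ) : k) + a t * (algebraMap ℂ k s0 + ε)) *
      algebraMap ℂ k (d t : ℂ)⁻¹ = algebraMap ℂ k ((((κ t + 1 : ℕ) : ℂ) + a t * s0) / d t) +
        ε * (a t * algebraMap ℂ k (d t : ℂ)⁻¹) := by
    intro t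
    rw [div_eq_mul_inv, map_mul, map_add, map_mul, map_natCast, map_natCast]
    ring
  rw [Finset.sum_congr rfl fun t _ => h1 t, Finset.sum_add_distrib]
  ring

theorem exists_g (ε : k) (hunit : ∀ (r : ℂ) (x : k), r ≠ 0 → IsUnit (algebraMap ℂ k r + ε * x))
    (a κ d : σ → ℕ) (b : σ → ℂ) (hd : ∀ t, d t ≠ 0) (hb : ∀ t, b t ≠ 0) (s0 : ℂ)
    (hA : ∀ t, ∀ n : ℕ, 1 ≤ n → ((κ t + 1 : ℕ) : ℂ) + a t * s0 ≠ d t * n) :
    ∃ g : σ → ℤ → k, (∀ t, g t 0 = 1) ∧ ∀ t l, (d t : k) * algebraMap ℂ k (b t) * g t (l + 1) =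
      (d t * l + (((κ t + 1 : ℕ) : k) + a t * (algebraMap ℂ k s0 + ε))) * g t l := by
  have h : ∀ t, ∃ g : ℤ → k, g 0 = 1 ∧ ∀ l : ℤ, (d t : k) * algebraMap ℂ k (b t) * g (l + 1) =
      (d t * l + (((κ t + 1 : ℕ) : k) + a t * (algebraMap ℂ k s0 + ε))) * g l := by
    intro t
    refine exists_rec (fun _ => (d t : k) * algebraMap ℂ k (b t))
      (fun l => d t * l + (((κ t + 1 : ℕ) : k) + a t * (algebraMap ℂ k s0 + ε)))
      (fun n _ => ?_) fun n hn => ?_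
    · have h1 := hunit (d t * b t) 0 (mul_ne_zero (Nat.cast_ne_zero.2 (hd t)) (hb t))
      rw [mul_zero, add_zero, map_mul, map_natCast] at h1
      exact h1
    · obtain ⟨m, rfl⟩ : ∃ m : ℕ, n = -(m : ℤ) := ⟨(-n).toNat, by omega⟩
      have h1 := hunit (-(d t * m) + (((κ t + 1 : ℕ) : ℂ) + a t * s0)) (a t) (by
        intro h0
        exact hA t m (by omega) (by linear_combination h0))
      have h2 : (d t : k) * ((-(m : ℤ) : ℤ) : k) +
          (((κ t + 1 : ℕ) : k) + a t * (algebraMap ℂ k s0 + ε)) =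
          algebraMap ℂ k (-(d t * m) + (((κ t + 1 : ℕ) : ℂ) + a t * s0)) + ε * a t := by
        rw [map_add, map_add, map_neg, map_mul, map_mul, map_natCast, map_natCast, map_natCast,
          map_natCast]
        push_cast
        ring
      rw [h2]
      exact h1
  choose g hg0 hg using h
  exact ⟨g, hg0, hg⟩

theorem exists_c (ε : k) (hunit : ∀ (r : ℂ) (x : k), r ≠ 0 → IsUnit (algebraMap ℂ k r + ε * x))
    (s0 : ℂ) (hs0 : ∀ n : ℕ, -s0 + n ≠ 0) :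
    ∃ c : ℤ → k, c 0 = 1 ∧ ∀ m : ℤ, (-(algebraMap ℂ k s0 + ε) + m) * c (m + 1) = c m := by
  obtain ⟨c, hc0, hc⟩ := exists_rec (fun m : ℤ => -(algebraMap ℂ k s0 + ε) + (m : k)) (fun _ => 1)
    (fun n hn => by
      obtain ⟨m, rfl⟩ : ∃ m : ℕ, n = m := ⟨n.toNat, by omega⟩
      have h1 := hunit (-s0 + m) (-1) (hs0 m)
      have h2 : -(algebraMap ℂ k s0 + ε) + (((m : ℕ) : ℤ) : k) =
          algebraMap ℂ k (-s0 + m) + ε * (-1) := by
        rw [map_add, map_neg, map_natCast]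
        push_cast
        ring
      rw [h2]
      exact h1) (fun _ _ => isUnit_one)
  exact ⟨c, hc0, fun m => by rw [hc, one_mul]⟩

theorem exists_p (ε : k) (hunit : ∀ (r : ℂ) (x : k), r ≠ 0 → IsUnit (algebraMap ℂ k r + ε * x))
    (z0 : ℂ) (x : k) (hz : ∀ n : ℕ, 1 ≤ n → z0 ≠ n) :
    ∃ p : ℤ → k, p 0 = 1 ∧ ∀ n : ℤ, p (n + 1) = (algebraMap ℂ k z0 + ε * x + n) * p n := by
  obtain ⟨p, hp0, hp⟩ := exists_rec (fun _ => 1) (fun n : ℤ => algebraMap ℂ k z0 + ε * x + (n : k))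
    (fun _ _ => isUnit_one) (fun n hn => by
      obtain ⟨m, rfl⟩ : ∃ m : ℕ, n = -(m : ℤ) := ⟨(-n).toNat, by omega⟩
      have h1 := hunit (z0 - m) x (fun h => hz m (by omega) (sub_eq_zero.1 h))
      have h2 : algebraMap ℂ k z0 + ε * x + ((-(m : ℤ) : ℤ) : k) =
          algebraMap ℂ k (z0 - m) + ε * x := by
        rw [map_sub, map_natCast]
        push_cast
        ring
      rw [h2]
      exact h1)
  exact ⟨p, hp0, fun m => by rw [← hp, one_mul]⟩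

theorem const_PL (e : σ → ℕ) (he : ∀ t, e t ≠ 0) (d κ : σ → ℕ) (g : σ → ℤ → k) (p c : ℤ → k)
    (U : MvPowerSeries σ ℂ) (ρ : (BB k σ)⟦X⟧) (hρ : constantCoeff ρ = 1) :
    coeff 0 (PL (lam d (fun t => κ t + 1) g p c)
      (C (mon (fun t => ((κ t + 1 : ℕ) : ℤ), 0)) * SS e he U * ρ)) =
      algebraMap ℂ k (MvPowerSeries.constantCoeff U) * ((∏ t, g t 0) * p 0 * c 0) := by
  have h11 : coeff 0 (C (mon (fun t => ((κ t + 1 : ℕ) : ℤ), 0)) * SS e he U * ρ) =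
      algebraMap ℂ k (MvPowerSeries.constantCoeff U) •
        (mon (fun t => ((κ t + 1 : ℕ) : ℤ), 0) : BB k σ) := by
    rw [coeff_zero_eq_constantCoeff_apply, map_mul, map_mul, constantCoeff_SS, hρ,
      mul_one, constantCoeff_C, mul_comm, IsScalarTower.algebraMap_apply ℂ k (BB k σ),
      ← Algebra.smul_def]
  rw [coeff_PL, h11, map_smul, lam_mon, smul_eq_mul]
  congr 1
  exact val_base d (fun t => κ t + 1) g p c

theorem isUnit_PL (e : σ → ℕ) (he : ∀ t, e t ≠ 0) (d κ : σ → ℕ) (g : σ → ℤ → k) (p c : ℤ → k)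
    (U : MvPowerSeries σ ℂ) (hU : MvPowerSeries.constantCoeff U ≠ 0)
    (ρ : (BB k σ)⟦X⟧) (hρ : constantCoeff ρ = 1) (hg : ∀ t, g t 0 = 1) (hp : p 0 = 1)
    (hc : c 0 = 1) : IsUnit (PL (lam d (fun t => κ t + 1) g p c)
      (C (mon (fun t => ((κ t + 1 : ℕ) : ℤ), 0)) * SS e he U * ρ)) := by
  rw [PowerSeries.isUnit_iff_constantCoeff, ← coeff_zero_eq_constantCoeff_apply, const_PL e he d κ
    g p c U ρ hρ, Finset.prod_congr rfl fun t _ => hg t, hp, hc, Finset.prod_const_one, mul_one,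
    mul_one, mul_one]
  exact (IsUnit.mk0 _ hU).map _

/-- the power `(1 + y) ^ (-1 + ε)` -/
theorem exists_rho_minus (P : Subalgebra k (BB k σ)) (y : (BB k σ)⟦X⟧)
    (hy0 : constantCoeff y = 0) (hyP : ∀ n, coeff n y ∈ P) (ε : k) :
    ∃ y' ρ w : (BB k σ)⟦X⟧, (1 + y) * y' = 1 ∧ constantCoeff ρ = 1 ∧ (∀ n, coeff n ρ ∈ P) ∧
      (∀ n, coeff n w ∈ P) ∧ ρ * (1 + y) = 1 + ε • w ∧
      ∀ D : Derivation k (BB k σ) (BB k σ),
        (1 + y) * PD D ρ = (algebraMap ℂ k (-1) + ε) • (ρ * PD D y) := by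
  obtain ⟨y', hy', hy'0, hy'P⟩ := exists_inv P y hy0 hyP
  obtain ⟨ρ, w, hρ1, hρ2, hw, hρw, hρ⟩ := exists_rho_eps P y hy0 hyP ε 1
  refine ⟨y', ρ * y', w, hy', by rw [map_mul, hρ1, hy'0, one_mul], fun n => ?_, hw, ?_, fun D => ?_⟩
  · rw [PowerSeries.coeff_mul]
    exact P.sum_mem fun x _ => P.mul_mem (hρ2 _) (hy'P _)
  · rw [← hρw, mul_assoc, mul_comm y', hy', mul_one]
  · have h1 := hρ D
    have h2 : PD D ((1 + y) * y') = 0 := by rw [hy', Derivation.map_one_eq_zero]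
    rw [Derivation.leibniz, map_add, Derivation.map_one_eq_zero, zero_add] at h2
    simp only [smul_eq_mul] at h2
    rw [Derivation.leibniz]
    simp only [smul_eq_mul, mul_one] at h1 ⊢
    rw [Algebra.smul_def] at h1 ⊢
    rw [map_add, map_neg, map_one, map_neg, map_one]
    linear_combination y' * h1 + ρ * h2

/-- the exponents `≥ K t` -/
def ZC (K : σ → ℕ) (γ : Gam σ) : Prop := ∀ t, (K t : ℤ) ≤ γ.1 t

theorem Bp_shift (K : σ → ℕ) (v : BB k σ) (hv : v ∈ Bp (ZA K Finset.univ)) : v ∈ Bp (ZC K) := by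
  have h1 : (mon (fun _ => -1, 0) * mon (fun _ => 1, 0) : BB k σ) = 1 := by
    rw [mon_mul]
    have : ((fun _ => -1, 0) + (fun _ => 1, 0) : Gam σ) = 0 := by ext t <;> simp
    rw [this, mon_zero]
  have h2 : ∀ u ∈ (Ip (ZC K) : Submodule k (BB k σ)),
      mon (fun _ => 1, 0) * u ∈ (Ip (ZA K Finset.univ) : Submodule k (BB k σ)) := by
    intro u hu
    induction hu using Submodule.span_induction with
    | mem u hu =>
      obtain ⟨δ, hδ, rfl⟩ := hu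
      rw [mon_mul]
      refine Submodule.subset_span ⟨_, fun t _ => ?_, rfl⟩
      have h3 := hδ t
      have : ((fun _ => 1, 0) + δ : Gam σ).1 t = 1 + δ.1 t := rfl
      omega
    | zero => rw [mul_zero]; exact Submodule.zero_mem _
    | add v w _ _ h1 h2 => rw [mul_add]; exact Submodule.add_mem _ h1 h2
    | smul r v _ h1 => rw [mul_smul_comm]; exact Submodule.smul_mem _ _ h1
  have h3 : ∀ u ∈ (Ip (ZA K Finset.univ) : Submodule k (BB k σ)),
      mon (fun _ => -1, 0) * u ∈ (Ip (ZC K) : Submodule k (BB k σ)) := by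
    intro u hu
    induction hu using Submodule.span_induction with
    | mem u hu =>
      obtain ⟨δ, hδ, rfl⟩ := hu
      rw [mon_mul]
      refine Submodule.subset_span ⟨_, fun t => ?_, rfl⟩
      have h3 := hδ t (Finset.mem_univ t)
      have : ((fun _ => -1, 0) + δ : Gam σ).1 t = -1 + δ.1 t := rfl
      omega
    | zero => rw [mul_zero]; exact Submodule.zero_mem _
    | add v w _ _ h1 h2 => rw [mul_add]; exact Submodule.add_mem _ h1 h2
    | smul r v _ h1 => rw [mul_smul_comm]; exact Submodule.smul_mem _ _ h1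
  intro u hu
  have h4 := h3 _ (hv _ (h2 u hu))
  have h5 : mon (fun _ => -1, 0) * (v * (mon (fun _ => 1, 0) * u)) = v * u := by
    linear_combination (v * u) * h1
  rwa [h5] at h4

section Cases

variable (e : σ → ℕ) (he : ∀ t, e t ≠ 0) (D : ℕ) (hD0 : D ≠ 0) (d : σ → ℕ) (hd : ∀ t, d t ≠ 0)
  (hD : ∀ t, e t * d t = D) (b : σ → ℂ) (hb : ∀ t, b t ≠ 0)
  (ξ : σ → MvPowerSeries σ ℂ) (κ a : σ → ℕ) (U : MvPowerSeries σ ℂ)
  (hU : MvPowerSeries.constantCoeff U ≠ 0)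
  (hJ : (Matrix.of fun t i => MvPowerSeries.pderiv ℂ t (ξ i)).det =
      (∏ t, MvPowerSeries.X t ^ κ t) * U)
  (f0 f1 : MvPolynomial σ ℂ) (h0 h1 : MvPowerSeries σ ℂ)
  (hf0 : MvPolynomial.aeval ξ f0 = (∏ t, MvPowerSeries.X t ^ a t) * h0)
  (hf1 : MvPolynomial.aeval ξ f1 = (∏ t, MvPowerSeries.X t ^ a t) * h1)
  (hh1 : MvPowerSeries.constantCoeff h1 = 1)
  (hb' : ∀ t, MvPowerSeries.coeff (Finsupp.single t (d t)) h0 = b t)
  (hh : ∀ μ, MvPowerSeries.coeff μ h0 ≠ 0 → D < wt e μ ∨ ∃ t, μ = Finsupp.single t (d t))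
  (ε : k) (hunit : ∀ (r : ℂ) (x : k), r ≠ 0 → IsUnit (algebraMap ℂ k r + ε * x))
  (s0 : ℂ) (T : Finset σ)
  (hTa : ∀ t ∈ T, a t ≠ 0) (hT : ∀ t ∈ T, ((κ t + 1 : ℕ) : ℂ) + a t * s0 = 0)
  (hA : ∀ t, ∀ n : ℕ, 1 ≤ n → ((κ t + 1 : ℕ) : ℂ) + a t * s0 ≠ d t * n)

include he hD0 hd hD hb hU hJ hf0 hf1 hh1 hb' hh hunit hTa hT hA in
/-- **First case.** -/
theorem case_A (hs0 : ∀ n : ℕ, -s0 + n ≠ 0)
    (hND : ∀ n : ℕ, 1 ≤ n → -s0 - ∑ t, (((κ t + 1 : ℕ) : ℂ) + a t * s0) / d t ≠ n)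
    (hε : ε ^ T.card = 0) (N : ℕ) (S : Finset (List (σ ⊕ σ))) (hS : ∀ w ∈ S, w.length ≤ N)
    (r : List (σ ⊕ σ) → Polynomial k) (Q : Polynomial k)
    (heq : MvPolynomial.C Q * pen f0 f1 ^ N = ∑ w ∈ S, MvPolynomial.C (r w) *
      pen f0 f1 ^ (N + 1 - w.length) *
        VG.qq (pen f0 f1) (Polynomial.C (algebraMap ℂ k s0 + ε)) w) : Q = 0 := by
  obtain ⟨g, hg0, hg⟩ := exists_g ε hunit a κ d b hd hb s0 hA
  obtain ⟨c, hc0, hc⟩ := exists_c ε hunit s0 hs0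
  obtain ⟨p, hp0, hp⟩ := exists_p ε hunit (-s0 - ∑ t, (((κ t + 1 : ℕ) : ℂ) + a t * s0) / d t)
    (-1 - ∑ t, a t * algebraMap ℂ k (d t : ℂ)⁻¹) hND
  have hdi : ∀ t, (d t : k) * algebraMap ℂ k (d t : ℂ)⁻¹ = 1 := by
    intro t
    rw [← map_natCast (algebraMap ℂ k), ← map_mul, mul_inv_cancel₀ (Nat.cast_ne_zero.2 (hd t)),
      map_one]
  have htp : ∀ v, lam d (fun t => κ t + 1) g p c (tp d (fun t => algebraMap ℂ k (b t)) * v) =
      lam d (fun t => κ t + 1) g p c v :=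
    lam_tp d (fun t => κ t + 1) g p c hd (fun t => algebraMap ℂ k (d t : ℂ)⁻¹) hdi hg hc hp
      (zz_eq a κ d s0 ε).symm
  obtain ⟨y, hy, hy0, hyf⟩ := phi_pen (k := k) e he D d b ξ (ZA (fun t => κ t + 1) T)
    (ZA_adm _ T) (ZA_eta _ T) f0 f1 a h0 h1 hf0 hf1 hh1 hd hD hb' hh
  obtain ⟨y', hy', -, -⟩ := exists_inv (Bp (ZA (fun t => κ t + 1) T)) y hy0 hy
  obtain ⟨ρ, hρ1, hρ2, hρ⟩ := exists_rho (Bp (ZA (fun t => κ t + 1) T)) y hy0 hy
    (algebraMap ℂ k s0 + ε)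
  have hval : ∀ γ, ZA (fun t => κ t + 1) T γ → val d (fun t => κ t + 1) g p c γ = 0 := by
    intro γ hγ
    by_cases h : Sup d (fun t => κ t + 1) γ
    · obtain ⟨x, hx⟩ := prod_eps ε T (fun t => g t (lt d (fun t => κ t + 1) γ t)) (fun t ht => by
        refine g_eps ε ((d t : k) * algebraMap ℂ k (b t)) ?_ (g t) (d t) _ ?_ (hg t) _
          (lt_pos d (fun t => κ t + 1) hd γ h t (hγ t ht))
        · have h1 := hunit (d t * b t) 0 (mul_ne_zero (Nat.cast_ne_zero.2 (hd t)) (hb t))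
          rwa [mul_zero, add_zero, map_mul, map_natCast] at h1
        · refine ⟨a t, ?_⟩
          have h1 := congrArg (algebraMap ℂ k) (hT t ht)
          rw [map_add, map_mul, map_natCast, map_natCast, map_zero] at h1
          linear_combination h1)
      rw [val_of d _ g p c γ h, hx, hε]
      ring
    · exact val_not d _ g p c γ h
  have hzero : ∀ q, PL (lam d (fun t => κ t + 1) g p c)
      (C (mon (fun t => ((κ t + 1 : ℕ) : ℤ) + a t, 1)) * (SS e he U *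
        phi e he D d (fun t => algebraMap ℂ k (b t)) ξ q * (ρ * (1 + y)))) = 0 := by
    intro q
    refine zero_A d (fun t => κ t + 1) T g p c hval _ ?_ _ ?_
    · intro t ht
      have := Nat.one_le_iff_ne_zero.2 (hTa t ht)
      push_cast
      omega
    · exact (Rp _).mul_mem ((Rp _).mul_mem (SS_mem_Rp e _ (ZA_adm _ T) he U)
        (phi_mem e he D d _ ξ _ (ZA_adm _ T) q))
        ((Rp _).mul_mem hρ2 ((Rp _).add_mem (Rp _).one_mem hy))
  have h1 := chart_core e he D d (fun t => algebraMap ℂ k (b t)) ξ κ a U hJ (pen f0 f1) _ y y' ρ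
    hyf (algebraMap ℂ k s0 + ε) hd hy' hρ g p c hg hc htp hzero N S hS r Q heq
  have h2 := isUnit_PL e he d κ g p c U hU ρ hρ1 hg0 hp0 hc0
  exact aeval_X_pow_eq_zero D hD0 Q ((IsUnit.mul_left_eq_zero h2).1 h1)

include he hD0 hd hD hb hU hJ hf0 hf1 hh1 hb' hh hunit hTa hT hA in
/-- **Second case.** -/
theorem case_B (hs0 : s0 = -1)
    (hND : ∀ n : ℕ, 1 ≤ n → -s0 - ∑ t, (((κ t + 1 : ℕ) : ℂ) + a t * s0) / d t ≠ n)
    (hε : ε ^ (T.card + 1) = 0) (N : ℕ) (S : Finset (List (σ ⊕ σ))) (hS : ∀ w ∈ S, w.length ≤ N)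
    (r : List (σ ⊕ σ) → Polynomial k) (Q : Polynomial k)
    (heq : MvPolynomial.C Q * pen f0 f1 ^ N = ∑ w ∈ S, MvPolynomial.C (r w) *
      pen f0 f1 ^ (N + 1 - w.length) *
        VG.qq (pen f0 f1) (Polynomial.C (algebraMap ℂ k s0 + ε)) w) : Q = 0 := by
  obtain ⟨g, hg0, hg⟩ := exists_g ε hunit a κ d b hd hb s0 hA
  obtain ⟨c, hc0, hc⟩ := exists_c ε hunit s0 (fun n => by
    rw [hs0, neg_neg, add_comm]; exact Nat.cast_add_one_ne_zero n)
  obtain ⟨p, hp0, hp⟩ := exists_p ε hunit (-s0 - ∑ t, (((κ t + 1 : ℕ) : ℂ) + a t * s0) / d t)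
    (-1 - ∑ t, a t * algebraMap ℂ k (d t : ℂ)⁻¹) hND
  have hdi : ∀ t, (d t : k) * algebraMap ℂ k (d t : ℂ)⁻¹ = 1 := by
    intro t
    rw [← map_natCast (algebraMap ℂ k), ← map_mul, mul_inv_cancel₀ (Nat.cast_ne_zero.2 (hd t)),
      map_one]
  have htp : ∀ v, lam d (fun t => κ t + 1) g p c (tp d (fun t => algebraMap ℂ k (b t)) * v) =
      lam d (fun t => κ t + 1) g p c v :=
    lam_tp d (fun t => κ t + 1) g p c hd (fun t => algebraMap ℂ k (d t : ℂ)⁻¹) hdi hg hc hp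
      (zz_eq a κ d s0 ε).symm
  obtain ⟨y, hy, hy0, hyf⟩ := phi_pen (k := k) e he D d b ξ (ZA (fun t => κ t + 1) T)
    (ZA_adm _ T) (ZA_eta _ T) f0 f1 a h0 h1 hf0 hf1 hh1 hd hD hb' hh
  obtain ⟨y', ρ, w, hy', hρ1, hρ2, hw, hρw, hρ⟩ :=
    exists_rho_minus (Bp (ZA (fun t => κ t + 1) T)) y hy0 hy ε
  rw [← hs0] at hρ
  have hval : ∀ γ, ZA (fun t => κ t + 1) T γ → ∃ x, val d (fun t => κ t + 1) g p c γ =
      ε ^ T.card * x * c (-γ.2) := by
    intro γ hγ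
    by_cases h : Sup d (fun t => κ t + 1) γ
    · obtain ⟨x, hx⟩ := prod_eps ε T (fun t => g t (lt d (fun t => κ t + 1) γ t)) (fun t ht => by
        refine g_eps ε ((d t : k) * algebraMap ℂ k (b t)) ?_ (g t) (d t) _ ?_ (hg t) _
          (lt_pos d (fun t => κ t + 1) hd γ h t (hγ t ht))
        · have h1 := hunit (d t * b t) 0 (mul_ne_zero (Nat.cast_ne_zero.2 (hd t)) (hb t))
          rwa [mul_zero, add_zero, map_mul, map_natCast] at h1
        · refine ⟨a t, ?_⟩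
          have h1 := congrArg (algebraMap ℂ k) (hT t ht)
          rw [map_add, map_mul, map_natCast, map_natCast, map_zero] at h1
          linear_combination h1)
      refine ⟨x * p (-γ.2 - ∑ t, lt d (fun t => κ t + 1) γ t), ?_⟩
      rw [val_of d _ g p c γ h, hx]
      ring
    · exact ⟨0, by rw [val_not d _ g p c γ h]; ring⟩
  have hceps : ∀ m : ℤ, m ≤ -1 → ∃ y, c m = ε * y := by
    refine c_eps ε 1 c fun m => ?_
    rw [← hc m, hs0, map_neg, map_one, mul_one]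
  have hzero : ∀ q, PL (lam d (fun t => κ t + 1) g p c)
      (C (mon (fun t => ((κ t + 1 : ℕ) : ℤ) + a t, 1)) * (SS e he U *
        phi e he D d (fun t => algebraMap ℂ k (b t)) ξ q * (ρ * (1 + y)))) = 0 := by
    intro q
    rw [hρw]
    refine zero_B d (fun t => κ t + 1) T g p c ε ?_ ?_ _ ?_ (le_refl _) _ w ?_ ?_ hw
    · intro γ hγ
      obtain ⟨x, hx⟩ := hval γ hγ
      rw [hx]
      linear_combination (x * c (-γ.2)) * hε
    · intro γ hγ hγ2
      obtain ⟨x, hx⟩ := hval γ hγ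
      obtain ⟨x', hx'⟩ := hceps (-γ.2) (by omega)
      rw [hx, hx']
      linear_combination (x * x') * hε
    · intro t ht
      have := Nat.one_le_iff_ne_zero.2 (hTa t ht)
      push_cast
      omega
    · exact (Rp _).mul_mem (SS_mem_Rp e _ (ZA_adm _ T) he U) (phi_mem e he D d _ ξ _ (ZA_adm _ T) q)
    · exact (Rp _).mul_mem (SS_mem_Rp e _ (ZB_adm _ T) he U) (phi_mem e he D d _ ξ _ (ZB_adm _ T) q)
  have h1 := chart_core e he D d (fun t => algebraMap ℂ k (b t)) ξ κ a U hJ (pen f0 f1) _ y y' ρ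
    hyf (algebraMap ℂ k s0 + ε) hd hy' hρ g p c hg hc htp hzero N S hS r Q heq
  have h2 := isUnit_PL e he d κ g p c U hU ρ hρ1 hg0 hp0 hc0
  exact aeval_X_pow_eq_zero D hD0 Q ((IsUnit.mul_left_eq_zero h2).1 h1)

include he hD0 hd hD hb hU hJ hf0 hf1 hh1 hb' hh hunit hTa hT in
/-- **Third case.** -/
theorem case_C (hTu : T = Finset.univ) (hs0 : s0 = -1)
    (hε : ε ^ (T.card + 1) = 0) (N : ℕ) (S : Finset (List (σ ⊕ σ))) (hS : ∀ w ∈ S, w.length ≤ N)
    (r : List (σ ⊕ σ) → Polynomial k) (Q : Polynomial k)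
    (heq : MvPolynomial.C Q * pen f0 f1 ^ N = ∑ w ∈ S, MvPolynomial.C (r w) *
      pen f0 f1 ^ (N + 1 - w.length) *
        VG.qq (pen f0 f1) (Polynomial.C (algebraMap ℂ k s0 + ε)) w) :
    Polynomial.C ε * Q = 0 := by
  have hA : ∀ t, ∀ n : ℕ, 1 ≤ n → ((κ t + 1 : ℕ) : ℂ) + a t * s0 ≠ d t * n := by
    intro t n hn
    rw [hT t (hTu ▸ Finset.mem_univ t)]
    exact (mul_ne_zero (Nat.cast_ne_zero.2 (hd t)) (Nat.cast_ne_zero.2 (by omega))).symm
  obtain ⟨g, hg0, hg⟩ := exists_g ε hunit a κ d b hd hb s0 hA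
  obtain ⟨c, hc0, hc⟩ := exists_c ε hunit s0 (fun n => by
    rw [hs0, neg_neg, add_comm]; exact Nat.cast_add_one_ne_zero n)
  obtain ⟨x, hx⟩ : ∃ x : k, x = -1 - ∑ t, a t * algebraMap ℂ k (d t : ℂ)⁻¹ := ⟨_, rfl⟩
  obtain ⟨p', hp'0, hp'⟩ := exists_p ε hunit 0 x (fun n hn h => by
    exact Nat.cast_ne_zero.2 (show n ≠ 0 by omega) h.symm)
  have hz0 : -s0 - ∑ t, (((κ t + 1 : ℕ) : ℂ) + a t * s0) / d t = 1 := by
    rw [Finset.sum_eq_zero fun t _ => by rw [hT t (hTu ▸ Finset.mem_univ t), zero_div], hs0]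
    ring
  obtain ⟨p, hpd⟩ : ∃ p : ℤ → k, p = fun n => p' (n + 1) := ⟨_, rfl⟩
  have hp : ∀ n : ℤ, p (n + 1) = (algebraMap ℂ k (-s0 - ∑ t, (((κ t + 1 : ℕ) : ℂ) + a t * s0) / d t)
      + ε * (-1 - ∑ t, a t * algebraMap ℂ k (d t : ℂ)⁻¹) + n) * p n := by
    intro n
    rw [hz0, ← hx, hpd]
    simp only
    rw [hp' (n + 1), map_zero, map_one]
    push_cast
    ring
  have hp0 : p 0 = ε * x := by
    rw [hpd]
    simp only
    have := hp' 0
    rw [hp'0, map_zero] at this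
    rw [this]
    push_cast
    ring
  have hpeps : ∀ n : ℤ, 0 ≤ n → ∃ w, p n = ε * w := by
    intro n hn
    obtain ⟨m, rfl⟩ : ∃ m : ℕ, n = m := ⟨n.toNat, by omega⟩
    induction m with
    | zero => exact ⟨x, hp0⟩
    | succ m ih =>
      obtain ⟨w, hw⟩ := ih (by omega)
      have h1 := hp m
      rw [hw] at h1
      push_cast at h1 ⊢
      rw [h1]
      exact ⟨_, mul_left_comm _ _ _⟩
  have hxu : IsUnit x := by
    have h1 : x = algebraMap ℂ k (-(1 + ∑ t, (a t : ℂ) / d t)) := by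
      rw [hx, map_neg, map_add, map_one, map_sum]
      simp only [div_eq_mul_inv, map_mul, map_natCast]
      ring
    rw [h1]
    refine (IsUnit.mk0 _ (neg_ne_zero.2 ?_)).map _
    have h2 : (0 : ℝ) < 1 + ∑ t, (a t : ℝ) / d t := by positivity
    have h3 : (1 + ∑ t, (a t : ℂ) / d t) = ((1 + ∑ t, (a t : ℝ) / d t : ℝ) : ℂ) := by
      push_cast
      rfl
    rw [h3]
    exact_mod_cast h2.ne'
  have hdi : ∀ t, (d t : k) * algebraMap ℂ k (d t : ℂ)⁻¹ = 1 := by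
    intro t
    rw [← map_natCast (algebraMap ℂ k), ← map_mul, mul_inv_cancel₀ (Nat.cast_ne_zero.2 (hd t)),
      map_one]
  have htp : ∀ v, lam d (fun t => κ t + 1) g p c (tp d (fun t => algebraMap ℂ k (b t)) * v) =
      lam d (fun t => κ t + 1) g p c v :=
    lam_tp d (fun t => κ t + 1) g p c hd (fun t => algebraMap ℂ k (d t : ℂ)⁻¹) hdi hg hc hp
      (zz_eq a κ d s0 ε).symm
  obtain ⟨y, hy, hy0, hyf⟩ := phi_pen (k := k) e he D d b ξ (ZA (fun t => κ t + 1) T)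
    (ZA_adm _ T) (ZA_eta _ T) f0 f1 a h0 h1 hf0 hf1 hh1 hd hD hb' hh
  obtain ⟨y', ρ, w, hy', hρ1, hρ2, hw, hρw, hρ⟩ :=
    exists_rho_minus (Bp (ZA (fun t => κ t + 1) T)) y hy0 hy ε
  rw [← hs0] at hρ
  have hgeps : ∀ t (l : ℤ), 1 ≤ l → ∃ w, g t l = ε * w := by
    intro t l hl
    refine g_eps ε ((d t : k) * algebraMap ℂ k (b t)) ?_ (g t) (d t) _ ?_ (hg t) _ hl
    · have h1 := hunit (d t * b t) 0 (mul_ne_zero (Nat.cast_ne_zero.2 (hd t)) (hb t))
      rwa [mul_zero, add_zero, map_mul, map_natCast] at h1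
    · refine ⟨a t, ?_⟩
      have h1 := congrArg (algebraMap ℂ k) (hT t (hTu ▸ Finset.mem_univ t))
      rw [map_add, map_mul, map_natCast, map_natCast, map_zero] at h1
      linear_combination h1
  have hval : ∀ γ, ZA (fun t => κ t + 1) T γ → ∃ x, val d (fun t => κ t + 1) g p c γ =
      ε ^ T.card * x * c (-γ.2) := by
    intro γ hγ
    by_cases h : Sup d (fun t => κ t + 1) γ
    · obtain ⟨x, hx⟩ := prod_eps ε T (fun t => g t (lt d (fun t => κ t + 1) γ t)) (fun t ht =>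
        hgeps t _ (lt_pos d (fun t => κ t + 1) hd γ h t (hγ t ht)))
      refine ⟨x * p (-γ.2 - ∑ t, lt d (fun t => κ t + 1) γ t), ?_⟩
      rw [val_of d _ g p c γ h, hx]
      ring
    · exact ⟨0, by rw [val_not d _ g p c γ h]; ring⟩
  have hceps : ∀ m : ℤ, m ≤ -1 → ∃ y, c m = ε * y := by
    refine c_eps ε 1 c fun m => ?_
    rw [← hc m, hs0, map_neg, map_one, mul_one]
  have hzero : ∀ q, PL (lam d (fun t => κ t + 1) g p c)
      (C (mon (fun t => ((κ t + 1 : ℕ) : ℤ) + a t, 1)) * (SS e he U *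
        phi e he D d (fun t => algebraMap ℂ k (b t)) ξ q * (ρ * (1 + y)))) = 0 := by
    intro q
    rw [hρw]
    refine zero_B d (fun t => κ t + 1) T g p c ε ?_ ?_ _ ?_ (le_refl _) _ w ?_ ?_ hw
    · intro γ hγ
      obtain ⟨x, hx⟩ := hval γ hγ
      rw [hx]
      linear_combination (x * c (-γ.2)) * hε
    · intro γ hγ hγ2
      obtain ⟨x, hx⟩ := hval γ hγ
      obtain ⟨x', hx'⟩ := hceps (-γ.2) (by omega)
      rw [hx, hx']
      linear_combination (x * x') * hε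
    · intro t ht
      have := Nat.one_le_iff_ne_zero.2 (hTa t ht)
      push_cast
      omega
    · exact (Rp _).mul_mem (SS_mem_Rp e _ (ZA_adm _ T) he U) (phi_mem e he D d _ ξ _ (ZA_adm _ T) q)
    · exact (Rp _).mul_mem (SS_mem_Rp e _ (ZB_adm _ T) he U) (phi_mem e he D d _ ξ _ (ZB_adm _ T) q)
  have h1 := chart_core e he D d (fun t => algebraMap ℂ k (b t)) ξ κ a U hJ (pen f0 f1) _ y y' ρ
    hyf (algebraMap ℂ k s0 + ε) hd hy' hρ g p c hg hc htp hzero N S hS r Q heq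
  -- the values
  have hZC : ∀ γ, ZC (fun t => κ t + 1) γ → val d (fun t => κ t + 1) g p c γ ∈ Ideal.span {ε} := by
    intro γ hγ
    rw [Ideal.mem_span_singleton]
    by_cases h : Sup d (fun t => κ t + 1) γ
    · rw [val_of d _ g p c γ h]
      by_cases h2 : ∃ t, 1 ≤ lt d (fun t => κ t + 1) γ t
      · obtain ⟨t, ht⟩ := h2
        obtain ⟨w, hw⟩ := hgeps t _ ht
        rw [← Finset.mul_prod_erase _ _ (Finset.mem_univ t), hw]
        exact ⟨w * (∏ x ∈ Finset.univ.erase t, g x (lt d (fun t => κ t + 1) γ x)) *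
          p (-γ.2 - ∑ t, lt d (fun t => κ t + 1) γ t) * c (-γ.2), by ring⟩
      · have h3 : ∑ t, lt d (fun t => κ t + 1) γ t = 0 := by
          refine Finset.sum_eq_zero fun t _ => ?_
          have h4 := lt_nonneg d (fun t => κ t + 1) γ t (hγ t)
          have h5 : ¬ 1 ≤ lt d (fun t => κ t + 1) γ t := fun h => h2 ⟨t, h⟩
          omega
        rw [h3, sub_zero]
        rcases le_or_gt 0 (-γ.2) with h4 | h4
        · obtain ⟨w, hw⟩ := hpeps _ h4
          rw [hw]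
          exact ⟨(∏ t, g t (lt d (fun t => κ t + 1) γ t)) * w * c (-γ.2), by ring⟩
        · obtain ⟨w, hw⟩ := hceps _ (show -γ.2 ≤ -1 by omega)
          rw [hw]
          exact ⟨(∏ t, g t (lt d (fun t => κ t + 1) γ t)) * p (-γ.2) * w, by ring⟩
    · rw [val_not d _ g p c γ h]
      exact dvd_zero _
  obtain ⟨P, hP⟩ : ∃ P, P = PL (lam d (fun t => κ t + 1) g p c)
      (C (mon (fun t => ((κ t + 1 : ℕ) : ℤ), 0)) * SS e he U * ρ) := ⟨_, rfl⟩
  have hPn : ∀ n, ∃ v, coeff n P = ε * v := by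
    intro n
    have h2 : SS e he U * ρ ∈ (Rp (ZC (fun t => κ t + 1)) : Subalgebra k (BB k σ)⟦X⟧) := by
      refine (Rp _).mul_mem (fun m => ?_) (fun m => ?_)
      · exact Bp_shift _ _ (SS_mem_Rp e _ (ZA_adm _ Finset.univ) he U m)
      · exact Bp_shift _ _ (hTu ▸ hρ2 m)
    have h3 := lam_Ip (ZC (fun t => κ t + 1)) (Ideal.span {ε}) d _ g p c hZC _ (h2 n
      (mon (fun t => ((κ t + 1 : ℕ) : ℤ), 0)) (Submodule.subset_span ⟨_, fun t => le_refl _, rfl⟩))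
    obtain ⟨v, hv⟩ := Ideal.mem_span_singleton.1 h3
    refine ⟨v, ?_⟩
    rw [hP, coeff_PL, mul_assoc, coeff_C_mul, mul_comm, hv]
  choose v hv using hPn
  have hP0 : coeff 0 P = ε * (algebraMap ℂ k (MvPowerSeries.constantCoeff U) * x) := by
    rw [hP, const_PL e he d κ g p c U ρ hρ1, Finset.prod_congr rfl fun t _ => hg0 t, hp0, hc0,
      Finset.prod_const_one]
    ring
  obtain ⟨V, hV⟩ : ∃ V : k⟦X⟧, V = PowerSeries.mk fun n =>
    if n = 0 then algebraMap ℂ k (MvPowerSeries.constantCoeff U) * x else v n := ⟨_, rfl⟩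
  have hPV : P = C ε * V := by
    ext n
    rw [coeff_C_mul, hV, coeff_mk]
    split_ifs with hn
    · rw [hn, hP0]
    · exact hv n
  have hVu : IsUnit V := by
    rw [PowerSeries.isUnit_iff_constantCoeff, ← coeff_zero_eq_constantCoeff_apply, hV, coeff_mk,
      if_pos rfl]
    exact ((IsUnit.mk0 _ hU).map _).mul hxu
  rw [← hP, hPV, ← mul_assoc] at h1
  have h2 := (IsUnit.mul_left_eq_zero hVu).1 h1
  refine aeval_X_pow_eq_zero D hD0 _ ?_
  rw [map_mul, Polynomial.aeval_C, mul_comm]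
  exact h2

end Cases

end Pool.Agent.H63.VH
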