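import Mathlib

set_option autoImplicit false

/-! # Two-sided recursions over a commutative ring -/

namespace Pool.Agent.H63.VH

variable {k : Type} [CommRing k]

/-- A two-sided recursion `a n * g (n + 1) = b n * g n`, `g 0 = 1`. -/
theorem exists_rec (a b : ℤ → k) (ha : ∀ n, 0 ≤ n → IsUnit (a n))
    (hb : ∀ n, n < 0 → IsUnit (b n)) :
    ∃ g : ℤ → k, g 0 = 1 ∧ ∀ n, a n * g (n + 1) = b n * g n := by
  choose! a' ha' using fun n hn => (ha n hn).exists_right_inv
  choose! b' hb' using fun n hn => (hb n hn).exists_right_inv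
  let P : ℕ → k := fun n => Nat.rec 1 (fun j x => b j * a' j * x) n
  let Q : ℕ → k := fun n => Nat.rec 1 (fun j x => a (-(j : ℤ) - 1) * b' (-(j : ℤ) - 1) * x) n
  have hP0 : P 0 = 1 := rfl
  have hP : ∀ n : ℕ, P (n + 1) = b n * a' n * P n := fun n => rfl
  have hQ0 : Q 0 = 1 := rfl
  have hQ : ∀ n : ℕ, Q (n + 1) = a (-(n : ℤ) - 1) * b' (-(n : ℤ) - 1) * Q n := fun n => rfl
  refine ⟨fun n => if 0 ≤ n then P n.toNat else Q (-n).toNat, by simp [hP0], fun n => ?_⟩
  simp only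
  rcases lt_or_ge n 0 with h | h
  · obtain ⟨j, rfl⟩ : ∃ j : ℕ, n = -(j : ℤ) - 1 := ⟨(-n - 1).toNat, by omega⟩
    have hb1 := hb' _ h
    rw [if_neg (not_le.2 h)]
    have e1 : (-(-(j : ℤ) - 1)).toNat = j + 1 := by omega
    rw [e1, hQ]
    rcases Nat.eq_zero_or_pos j with h0 | h0
    · subst h0
      rw [if_pos (by norm_num)]
      have e3 : (-((0 : ℕ) : ℤ) - 1 + 1).toNat = 0 := by norm_num
      rw [e3, hP0, hQ0]
      linear_combination (-a (-((0 : ℕ) : ℤ) - 1)) * hb1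
    · rw [if_neg (by omega)]
      have e2 : (-(-(j : ℤ) - 1 + 1)).toNat = j := by omega
      rw [e2]
      linear_combination (-a (-(j : ℤ) - 1) * Q j) * hb1
  · obtain ⟨j, rfl⟩ : ∃ j : ℕ, n = j := ⟨n.toNat, by omega⟩
    have ha1 := ha' _ h
    rw [if_pos h, if_pos (by omega)]
    have e1 : ((j : ℤ) + 1).toNat = j + 1 := by omega
    rw [e1, hP, Int.toNat_natCast]
    linear_combination (b j * P j) * ha1

end Pool.Agent.H63.VH
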