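import Pool.Agent.H63.VH.Gen

set_option autoImplicit false
set_option linter.unusedSectionVars false

/-! # Very general members: the reduction, with multiplicities -/

namespace Pool.Agent.H63.VH

open MvPolynomial Pool.Agent.H628R4.TP Pool.Agent.H63.VG

theorem spec_eq {σ A B : Type} [CommRing A] [CommRing B] (h : A →+* B) (s : B)
    (U : MvPolynomial σ A) (z : A) (N ν : ℕ) (S : Finset (List (σ ⊕ σ))) (D1 : Polynomial A)
    (r : List (σ ⊕ σ) → Polynomial A)
    (heq : C ((Polynomial.X - Polynomial.C z) ^ ν * D1) * (map Polynomial.C U) ^ N =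
        ∑ w ∈ S, C (r w) * (map Polynomial.C U) ^ (N + 1 - w.length) *
          qq (map Polynomial.C U) Polynomial.X w) :
    C ((s - h z) ^ ν * D1.eval₂ h s) * (map h U) ^ N =
      ∑ w ∈ S, C ((r w).eval₂ h s) * (map h U) ^ (N + 1 - w.length) * qq (map h U) s w := by
  have h1 := congrArg (map (Polynomial.eval₂RingHom h s)) heq
  have h2 : map (Polynomial.eval₂RingHom h s) (map Polynomial.C U) = map h U := by
    rw [map_map]
    congr 2
    refine RingHom.ext fun r => ?_
    simp
  rw [map_mul, map_C, map_pow, h2, map_sum] at h1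
  have h3 : (Polynomial.eval₂RingHom h s) ((Polynomial.X - Polynomial.C z) ^ ν * D1) =
      (s - h z) ^ ν * D1.eval₂ h s := by
    rw [map_mul, map_pow, map_sub]
    simp
  rw [h3] at h1
  rw [h1]
  refine Finset.sum_congr rfl fun w _ => ?_
  rw [map_mul (map (Polynomial.eval₂RingHom h s)) (_ * _),
    map_mul (map (Polynomial.eval₂RingHom h s)) (C _), map_C,
    map_pow (map (Polynomial.eval₂RingHom h s)), map_qq, h2]
  simp

section Spec

variable {k σ ι : Type} [CommRing k] [Algebra ℂ k] [Fintype ι] {F : Subfield ℂ}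
  (G : ι → MvPolynomial σ F)

/-- the specialisation to a pencil -/
noncomputable def specK (c0 e : ι → ℂ) : MvPolynomial ι F →+* Polynomial k :=
  eval₂Hom (cst.comp (algebraMap F ℂ)) fun μ => cst (c0 μ) + cst (e μ) * Polynomial.X

theorem pen_eq_k (c0 e : ι → ℂ) :
    (pen (member G c0) (member G e) : MvPolynomial σ (Polynomial k)) =
      map (specK c0 e) (univ' G) := by
  rw [map_univ', pen, member, member, map_sum, map_sum, Finset.mul_sum, ← Finset.sum_add_distrib]
  refine Finset.sum_congr rfl fun μ _ => ?_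
  have h1 : (specK c0 e : MvPolynomial ι F →+* Polynomial k) (X μ) =
      cst (c0 μ) + cst (e μ) * Polynomial.X := by
    rw [specK, coe_eval₂Hom, eval₂_X]
  have h2 : (specK c0 e : MvPolynomial ι F →+* Polynomial k).comp C =
      cst.comp (algebraMap F ℂ) := by
    ext1 r
    rw [RingHom.comp_apply, specK, coe_eval₂Hom, eval₂_C]
  rw [h1, h2, map_mul, map_mul, map_C, map_C, map_map, map_add, map_mul]
  ring

theorem spec_zero (c0 v : ι → ℂ) (hv : ∃ μ, v μ ≠ 0) (hv0 : ∑ μ, c0 μ * v μ = 0)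
    (D : MvPolynomial ι F) (h : ∀ e : ι → ℂ, ∑ μ, e μ * v μ = 1 → spec c0 e D = 0) : D = 0 := by
  have h2 : ∀ y : ι → ℂ, ∑ μ, y μ * v μ ≠ 0 → aeval y D = (0 : ℂ) := by
    intro y hy
    set t := ∑ μ, y μ * v μ with ht
    set e : ι → ℂ := fun μ => (y μ - c0 μ) / t with he
    have h3 : ∑ μ, e μ * v μ = 1 := by
      have h4 : ∑ μ, e μ * v μ = (∑ μ, y μ * v μ - ∑ μ, c0 μ * v μ) / t := by
        rw [← Finset.sum_sub_distrib, Finset.sum_div]
        refine Finset.sum_congr rfl fun μ _ => ?_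
        rw [he]
        ring
      rw [h4, hv0, sub_zero, ← ht, div_self hy]
    have h7 := congrArg (Polynomial.eval t) (h e h3)
    rw [spec_eval, Polynomial.eval_zero] at h7
    rw [← h7]
    congr 2
    funext μ
    rw [he]
    field_simp
    ring
  have h3 : map (algebraMap F ℂ) D * (∑ μ, C (v μ) * X μ) = 0 := by
    refine MvPolynomial.funext fun y => ?_
    rw [map_mul, eval_map, map_zero]
    by_cases hy : ∑ μ, y μ * v μ = 0
    · have h4 : eval y (∑ μ, C (v μ) * X μ) = 0 := by
        rw [map_sum, ← hy]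
        refine Finset.sum_congr rfl fun μ _ => ?_
        rw [map_mul, eval_C, eval_X, mul_comm]
      rw [h4, mul_zero]
    · have h4 := h2 y hy
      rw [aeval_def] at h4
      rw [h4, zero_mul]
  rcases mul_eq_zero.1 h3 with h4 | h4
  · refine map_injective (algebraMap F ℂ) (algebraMap F ℂ).injective ?_
    rw [h4, map_zero]
  · obtain ⟨μ, hμ⟩ := hv
    classical
    have h5 := congrArg (eval fun ν => if ν = μ then (1 : ℂ) else 0) h4
    rw [map_sum, map_zero, Finset.sum_eq_single μ] at h5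
    · rw [map_mul, eval_C, eval_X, if_pos rfl, mul_one] at h5
      exact absurd h5 hμ
    · intro ν _ hν
      rw [map_mul, eval_C, eval_X, if_neg hν, mul_zero]
    · intro h; exact absurd (Finset.mem_univ _) h

/-- **The reduction.** -/
theorem mult_main (c : ι → ℂ) (hc : AlgebraicIndependent F c) (hG : ∃ μ, G μ ≠ 0)
    (b : Polynomial ℂ) (hb : IsBFunction (member G c) b) (z : F) (c0 v : ι → ℂ)
    (hv : ∃ μ, v μ ≠ 0) (hv0 : ∑ μ, c0 μ * v μ = 0) (ε : k) (π : k →+* ℂ)
    (hπ : ∀ r, π (algebraMap ℂ k r) = r) (hπε : π ε = 0) (m c' : ℕ)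
    (hK : ∀ ν < m, ∀ x : k, ε ^ (ν + c') * x = 0 → π x = 0)
    (heng : ∀ e : ι → ℂ, ∑ μ, e μ * v μ = 1 → ∀ (N : ℕ) (S : Finset (List (σ ⊕ σ))),
      (∀ w ∈ S, w.length ≤ N) → ∀ (r : List (σ ⊕ σ) → Polynomial k) (Q : Polynomial k),
      C Q * pen (member G c0) (member G e) ^ N = ∑ w ∈ S, C (r w) *
        pen (member G c0) (member G e) ^ (N + 1 - w.length) *
          qq (pen (member G c0) (member G e)) (Polynomial.C (algebraMap ℂ k (z : ℂ) + ε)) w →
            Polynomial.C (ε ^ c') * Q = 0) :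
    (Polynomial.X - Polynomial.C (z : ℂ)) ^ m ∣ b := by
  by_cases hb0 : b = 0
  · rw [hb0]; exact dvd_zero _
  rw [← Polynomial.le_rootMultiplicity_iff hb0]
  by_contra hlt
  rw [not_le] at hlt
  obtain ⟨N, S, D1, r, hS, hD1, heq⟩ := universal_poly G c hc hG b hb hb0 z
  refine hD1 (spec_zero c0 v hv hv0 _ fun e he => ?_)
  have h1 := spec_eq (specK (k := k) c0 e) (Polynomial.C (algebraMap ℂ k (z : ℂ) + ε)) (univ' G)
    (C z) N _ S D1 r heq
  rw [← pen_eq_k] at h1
  have h2 := heng e he N S hS _ _ h1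
  have hzc : (specK (k := k) c0 e) (C z) = Polynomial.C (algebraMap ℂ k (z : ℂ)) := by
    rw [specK, coe_eval₂Hom, eval₂_C]
    rfl
  have h3 : (Polynomial.C (algebraMap ℂ k (z : ℂ) + ε) - specK c0 e (C z)) = Polynomial.C ε := by
    rw [hzc, ← Polynomial.C_sub, add_sub_cancel_left]
  rw [h3, ← Polynomial.C_pow, ← mul_assoc, ← Polynomial.C_mul, mul_comm (ε ^ c'), ← pow_add] at h2
  have h4 : (Polynomial.eval₂ (specK c0 e) (Polynomial.C (algebraMap ℂ k (z : ℂ) + ε)) D1).map π
      = 0 := by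
    ext1 n
    rw [Polynomial.coeff_map, Polynomial.coeff_zero]
    refine hK _ hlt _ ?_
    have := congrArg (fun p => Polynomial.coeff p n) h2
    simp only [Polynomial.coeff_C_mul, Polynomial.coeff_zero] at this
    exact this
  have h5 : (Polynomial.mapRingHom π).comp
      (Polynomial.eval₂RingHom (specK (k := k) c0 e)
        (Polynomial.C (algebraMap ℂ k (z : ℂ) + ε))) =
      (spec c0 e).comp (Polynomial.evalRingHom (C z)) := by
    refine Polynomial.ringHom_ext' ?_ ?_
    · refine MvPolynomial.ringHom_ext (fun r => ?_) fun μ => ?_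
      · simp [specK, spec, cst, hπ]
      · simp [specK, spec, cst, hπ]
    · have e1 : (spec c0 e) (C z) = Polynomial.C (z : ℂ) := by
        rw [spec, coe_eval₂Hom, eval₂_C]
        rfl
      simp only [RingHom.coe_comp, Function.comp_apply, Polynomial.coe_eval₂RingHom,
        Polynomial.eval₂_X, Polynomial.coe_mapRingHom, Polynomial.map_C,
        Polynomial.coe_evalRingHom, Polynomial.eval_X]
      rw [e1, map_add, hπ, hπε, add_zero]
  have h6 := RingHom.congr_fun h5 D1
  change (Polynomial.eval₂ (specK c0 e) (Polynomial.C (algebraMap ℂ k (z : ℂ) + ε)) D1).map π =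
    spec c0 e (D1.eval (C z)) at h6
  rw [← h6, h4]

end Spec

end Pool.Agent.H63.VH
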