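import Pool.Agent.H63.VH.Lau

set_option autoImplicit false
set_option linter.unusedSectionVars false

/-! # Power series over a ring with derivations and functionals -/

namespace Pool.Agent.H63.VH

open PowerSeries

section Lift

variable {k B : Type} [CommRing k] [CommRing B] [Algebra k B]

/-- a derivation, coefficientwise -/
noncomputable def PD (D : Derivation k B B) : Derivation k B⟦X⟧ B⟦X⟧ :=
  Derivation.mk' 
    { toFun := fun u => PowerSeries.mk fun n => D (coeff n u)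
      map_add' := fun u v => by ext n; simp
      map_smul' := fun r u => by
        ext n
        rw [coeff_mk, PowerSeries.coeff_smul, Derivation.map_smul, RingHom.id_apply,
          PowerSeries.coeff_smul, coeff_mk] } (by
    intro u v
    ext n
    rw [map_add, smul_eq_mul, smul_eq_mul, mul_comm v]
    simp only [LinearMap.coe_mk, AddHom.coe_mk, coeff_mk, PowerSeries.coeff_mul, map_sum,
      Derivation.leibniz, smul_eq_mul, Finset.sum_add_distrib]
    congr 1
    exact Finset.sum_congr rfl fun x _ => mul_comm _ _)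

theorem coeff_PD (D : Derivation k B B) (n : ℕ) (u : B⟦X⟧) :
    coeff n (PD D u) = D (coeff n u) := by
  change coeff n (PowerSeries.mk fun n => D (coeff n u)) = _
  rw [coeff_mk]

theorem PD_C (D : Derivation k B B) (b : B) : PD D (C b) = C (D b) := by
  ext n
  rw [coeff_PD, coeff_C, coeff_C]
  split_ifs <;> simp

theorem PD_X_pow (D : Derivation k B B) (N : ℕ) : PD D (X ^ N) = 0 := by
  ext n
  rw [coeff_PD, coeff_X_pow]
  split_ifs <;> simp

theorem PD_comm (D D' : Derivation k B B) (h : ∀ b, D (D' b) = D' (D b)) (u : B⟦X⟧) :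
    PD D (PD D' u) = PD D' (PD D u) := by
  ext n
  rw [coeff_PD, coeff_PD, coeff_PD, coeff_PD, h]

/-- a functional, coefficientwise -/
noncomputable def PL (l : B →ₗ[k] k) : B⟦X⟧ →+ k⟦X⟧ where
  toFun u := PowerSeries.mk fun n => l (coeff n u)
  map_zero' := by ext n; simp
  map_add' u v := by ext n; simp

theorem coeff_PL (l : B →ₗ[k] k) (n : ℕ) (u : B⟦X⟧) : coeff n (PL l u) = l (coeff n u) := by
  change coeff n (PowerSeries.mk fun n => l (coeff n u)) = _
  rw [coeff_mk]

theorem PL_X_pow (l : B →ₗ[k] k) (N : ℕ) (u : B⟦X⟧) : PL l (X ^ N * u) = X ^ N * PL l u := by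
  ext n
  rw [coeff_PL, coeff_X_pow_mul', coeff_X_pow_mul']
  split_ifs
  · rw [coeff_PL]
  · rw [map_zero]

theorem PL_zero (l : B →ₗ[k] k) (u : B⟦X⟧) (h : ∀ n, l (coeff n u) = 0) : PL l u = 0 := by
  ext n
  rw [coeff_PL, h, map_zero]

theorem coeff_pow_mem (P : Subalgebra k B) (y : B⟦X⟧) (hyP : ∀ n, coeff n y ∈ P) (j n : ℕ) :
    coeff n (y ^ j) ∈ P := by
  induction j generalizing n with
  | zero =>
    rw [pow_zero, coeff_one]
    split_ifs
    · exact P.one_mem
    · exact P.zero_mem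
  | succ j ih =>
    rw [pow_succ, PowerSeries.coeff_mul]
    exact P.sum_mem fun x _ => P.mul_mem (ih _) (hyP _)

/-- the substitution of a power series without constant coefficient -/
noncomputable def sub (a : ℕ → k) (y : B⟦X⟧) : B⟦X⟧ :=
  PowerSeries.mk fun N => ∑ j ∈ Finset.range (N + 1), a j • coeff N (y ^ j)

theorem coeff_sub' (a : ℕ → k) (y : B⟦X⟧) (hy : constantCoeff y = 0) (M N : ℕ) (hN : N < M) :
    coeff N (sub a y) = ∑ j ∈ Finset.range M, a j • coeff N (y ^ j) := by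
  rw [sub, coeff_mk]
  refine Finset.sum_subset (fun j hj => ?_) fun j _ hj => ?_
  · rw [Finset.mem_range] at hj ⊢
    omega
  · have h1 : N < j := by
      by_contra h
      exact hj (Finset.mem_range.2 (by omega))
    rw [coeff_of_lt_order, smul_zero]
    refine lt_of_lt_of_le (by exact_mod_cast h1) (le_order_pow_of_constantCoeff_eq_zero j hy)

theorem X_pow_dvd_sub (a : ℕ → k) (y : B⟦X⟧) (hy : constantCoeff y = 0) (M : ℕ) :
    X ^ M ∣ sub a y - ∑ j ∈ Finset.range M, a j • y ^ j := by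
  rw [X_pow_dvd_iff]
  intro N hN
  rw [map_sub, coeff_sub' a y hy M N hN, map_sum, sub_eq_zero]
  exact Finset.sum_congr rfl fun j _ => (PowerSeries.coeff_smul _ _ _).symm

theorem sub_mem (P : Subalgebra k B) (a : ℕ → k) (y : B⟦X⟧) (hyP : ∀ n, coeff n y ∈ P) (N : ℕ) :
    coeff N (sub a y) ∈ P := by
  rw [sub, coeff_mk]
  exact P.sum_mem fun j _ => P.smul_mem (coeff_pow_mem P y hyP j N) _

theorem constantCoeff_sub' (a : ℕ → k) (y : B⟦X⟧) :
    constantCoeff (sub a y) = algebraMap k B (a 0) := by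
  rw [← coeff_zero_eq_constantCoeff_apply, sub, coeff_mk]
  simp [Algebra.algebraMap_eq_smul_one]

theorem eq_of_X_pow_dvd (u v : B⟦X⟧) (h : ∀ M, X ^ M ∣ u - v) : u = v := by
  ext n
  have h1 := X_pow_dvd_iff.1 (h (n + 1)) n (by omega)
  rw [map_sub, sub_eq_zero] at h1
  exact h1

/-- the differential equation -/
theorem sub_ode (a : ℕ → k) (s : k) (ha : ∀ n : ℕ, (n + 1 : k) * a (n + 1) + n * a n = s * a n)
    (y : B⟦X⟧) (hy : constantCoeff y = 0) (D : Derivation k B B) :
    (1 + y) * PD D (sub a y) = s • (sub a y * PD D y) := by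
  refine eq_of_X_pow_dvd _ _ fun M => ?_
  obtain ⟨r, hr⟩ := X_pow_dvd_sub a y hy (M + 1)
  obtain ⟨w, hw⟩ : X ∣ y := X_dvd_iff.2 hy
  have h1 : sub a y = ∑ j ∈ Finset.range (M + 1), a j • y ^ j + X ^ (M + 1) * r := by
    rw [← hr]; ring
  have h2 : PD D (sub a y) = ∑ j ∈ Finset.range (M + 1), (j * a j) • (y ^ (j - 1) * PD D y) +
      X ^ (M + 1) * PD D r := by
    rw [h1, map_add, map_sum, Derivation.leibniz, PD_X_pow, smul_zero, add_zero, smul_eq_mul]
    congr 1
    refine Finset.sum_congr rfl fun j _ => ?_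
    rw [Derivation.map_smul, Derivation.leibniz_pow, smul_eq_mul, mul_comm (j : k), mul_smul]
    congr 1
    rw [Algebra.smul_def, map_natCast, nsmul_eq_mul]
  -- the telescoping identity
  have h3 : ∀ m : ℕ, (1 + y) * ∑ j ∈ Finset.range (m + 1), (j * a j) • (y ^ (j - 1) * PD D y) =
      s • ((∑ j ∈ Finset.range m, a j • y ^ j) * PD D y) + (m * a m) • (y ^ m * PD D y) := by
    intro m
    induction m with
    | zero => simp
    | succ m ih =>
      rw [Finset.sum_range_succ, mul_add, ih, Finset.sum_range_succ]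
      have h4 := ha m
      simp only [Nat.add_sub_cancel, Algebra.smul_def, map_mul, map_natCast]
      have h5 := congrArg (algebraMap k B⟦X⟧) h4
      simp only [map_mul, map_add, map_natCast, map_one] at h5
      push_cast
      linear_combination (y ^ m * PD D y) * h5
  have h4 := h3 M
  have h8 : s • (sub a y * PD D y) =
      s • ((∑ j ∈ Finset.range M, a j • y ^ j + a M • y ^ M + X ^ (M + 1) * r) * PD D y) := by
    rw [← Finset.sum_range_succ, ← h1]
  have h5 : (1 + y) * PD D (sub a y) - s • (sub a y * PD D y) = X ^ M * (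
      (algebraMap k B⟦X⟧ (M * a M) * w ^ M * PD D y) - algebraMap k B⟦X⟧ s *
        (algebraMap k B⟦X⟧ (a M) * w ^ M * PD D y) +
      X * ((1 + y) * PD D r - algebraMap k B⟦X⟧ s * (r * PD D y))) := by
    rw [h8, h2, mul_add, h4]
    have h6 : y ^ M = X ^ M * w ^ M := by rw [← mul_pow, ← hw]
    simp only [Algebra.smul_def, h6]
    ring
  rw [h5]
  exact dvd_mul_right _ _

theorem exists_inv (P : Subalgebra k B) (y : B⟦X⟧) (hy : constantCoeff y = 0)
    (hyP : ∀ n, coeff n y ∈ P) :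
    ∃ y' : B⟦X⟧, (1 + y) * y' = 1 ∧ constantCoeff y' = 1 ∧ ∀ n, coeff n y' ∈ P := by
  refine ⟨sub (fun n => (-1) ^ n) y, ?_, ?_, sub_mem P _ y hyP⟩
  · refine eq_of_X_pow_dvd _ _ fun M => ?_
    obtain ⟨r, hr⟩ := X_pow_dvd_sub (fun n => (-1 : k) ^ n) y hy M
    obtain ⟨w, hw⟩ : X ∣ y := X_dvd_iff.2 hy
    have h1 : ∀ m : ℕ, (1 + y) * ∑ j ∈ Finset.range m, ((-1 : k) ^ j) • y ^ j = 1 - (-y) ^ m := by
      intro m
      induction m with
      | zero => simp
      | succ m ih =>
        rw [Finset.sum_range_succ, mul_add, ih, Algebra.smul_def, map_pow, map_neg, map_one,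
          pow_succ, ← mul_pow]
        ring
    have h2 : (1 + y) * sub (fun n => (-1 : k) ^ n) y - 1 =
        X ^ M * ((1 + y) * r - (-w) ^ M) := by
      have h3 : sub (fun n => (-1 : k) ^ n) y = ∑ j ∈ Finset.range M, ((-1 : k) ^ j) • y ^ j +
          X ^ M * r := by rw [← hr]; ring
      have h4 : (-y) ^ M = X ^ M * (-w) ^ M := by rw [← mul_pow, hw]; ring
      rw [h3, mul_add, h1, h4]
      ring
    rw [h2]
    exact dvd_mul_right _ _
  · rw [constantCoeff_sub', pow_zero, map_one]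

end Lift

section Powers

variable {k B : Type} [CommRing k] [Algebra ℂ k] [CommRing B] [Algebra k B]

theorem exists_seq (s : k) : ∃ a : ℕ → k, a 0 = 1 ∧
    (∀ n : ℕ, (n + 1 : k) * a (n + 1) + n * a n = s * a n) ∧
    ∀ ε x : k, s = ε * x → ∀ n, ∃ w, a (n + 1) = ε * w := by
  have hu : ∀ n : ℕ, (n + 1 : k) * algebraMap ℂ k ((n : ℂ) + 1)⁻¹ = 1 := by
    intro n
    have h1 : (n + 1 : k) = algebraMap ℂ k ((n : ℂ) + 1) := by
      rw [map_add, map_natCast, map_one]
    rw [h1, ← map_mul, mul_inv_cancel₀ (by exact_mod_cast Nat.succ_ne_zero n), map_one]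
  let a : ℕ → k := fun n => Nat.rec 1 (fun n x => (s - n) * algebraMap ℂ k ((n : ℂ) + 1)⁻¹ * x) n
  have ha : ∀ n, a (n + 1) = (s - n) * algebraMap ℂ k ((n : ℂ) + 1)⁻¹ * a n := fun n => rfl
  refine ⟨a, rfl, fun n => ?_, fun ε x hs n => ?_⟩
  · rw [ha]
    linear_combination ((s - n) * a n) * hu n
  · induction n with
    | zero =>
      refine ⟨x * algebraMap ℂ k (((0 : ℕ) : ℂ) + 1)⁻¹ * a 0, ?_⟩
      rw [ha, hs, Nat.cast_zero, sub_zero]
      ring
    | succ n ih =>
      obtain ⟨w, hw⟩ := ih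
      refine ⟨(s - (n + 1 : ℕ)) * algebraMap ℂ k (((n + 1 : ℕ) : ℂ) + 1)⁻¹ * w, ?_⟩
      rw [ha, hw]
      ring

/-- the power `(1 + y) ^ s` -/
theorem exists_rho (P : Subalgebra k B) (y : B⟦X⟧) (hy0 : constantCoeff y = 0)
    (hyP : ∀ n, coeff n y ∈ P) (s : k) :
    ∃ ρ : B⟦X⟧, constantCoeff ρ = 1 ∧ (∀ n, coeff n ρ ∈ P) ∧
      ∀ D : Derivation k B B, (1 + y) * PD D ρ = s • (ρ * PD D y) := by
  obtain ⟨a, ha0, ha, -⟩ := exists_seq s
  exact ⟨sub a y, by rw [constantCoeff_sub', ha0, map_one], sub_mem P a y hyP,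
    fun D => sub_ode a s ha y hy0 D⟩

/-- the power `(1 + y) ^ s`, if `s` is a multiple of `ε` -/
theorem exists_rho_eps (P : Subalgebra k B) (y : B⟦X⟧) (hy0 : constantCoeff y = 0)
    (hyP : ∀ n, coeff n y ∈ P) (ε x : k) :
    ∃ ρ w : B⟦X⟧, constantCoeff ρ = 1 ∧ (∀ n, coeff n ρ ∈ P) ∧ (∀ n, coeff n w ∈ P) ∧
      ρ = 1 + ε • w ∧
      ∀ D : Derivation k B B, (1 + y) * PD D ρ = (ε * x) • (ρ * PD D y) := by
  obtain ⟨a, ha0, ha, ha'⟩ := exists_seq (ε * x)
  choose w hw using ha' ε x rfl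
  refine ⟨sub a y, sub (fun n => if n = 0 then 0 else w (n - 1)) y,
    by rw [constantCoeff_sub', ha0, map_one], sub_mem P a y hyP, sub_mem P _ y hyP, ?_,
    fun D => sub_ode a _ ha y hy0 D⟩
  ext N
  rw [map_add, PowerSeries.coeff_smul, sub, sub, coeff_mk, coeff_mk, Finset.smul_sum,
    Finset.sum_range_succ', Finset.sum_range_succ' (n := N)]
  rw [pow_zero, ha0, one_smul, if_pos rfl, zero_smul, smul_zero, add_zero, add_comm]
  congr 1
  refine Finset.sum_congr rfl fun j _ => ?_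
  rw [hw, if_neg (Nat.succ_ne_zero j), smul_smul]
  rfl

end Powers

end Pool.Agent.H63.VH
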