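import Pool.Agent.H63.VH.Ser

set_option autoImplicit false
set_option linter.unusedSectionVars false

/-! # The substitution `X t ↦ x t * τ ^ e t` -/

namespace Pool.Agent.H63.VH

open PowerSeries

variable {k σ : Type} [CommRing k] [Algebra ℂ k] [Fintype σ] [DecidableEq σ] (e : σ → ℕ)

/-- the images of the variables -/
noncomputable def sv (t : σ) : (BB k σ)⟦X⟧ := C (mon (Pi.single t 1, 0)) * X ^ e t

theorem sv_hasSubst (he : ∀ t, e t ≠ 0) : MvPowerSeries.HasSubst (sv (k := k) e) := by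
  refine MvPowerSeries.hasSubst_of_constantCoeff_zero fun t => ?_
  change PowerSeries.constantCoeff (sv (k := k) e t) = 0
  rw [sv, map_mul, map_pow, constantCoeff_X, zero_pow (he t), mul_zero]

/-- the substitution -/
noncomputable def SS (he : ∀ t, e t ≠ 0) : MvPowerSeries σ ℂ →ₐ[ℂ] (BB k σ)⟦X⟧ :=
  MvPowerSeries.substAlgHom (sv_hasSubst e he)

/-- the exponent as a monomial -/
noncomputable def mm (μ : σ →₀ ℕ) : BB k σ := mon (fun t => (μ t : ℤ), 0)

/-- the weight -/
def wt (μ : σ →₀ ℕ) : ℕ := ∑ t, e t * μ t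

theorem prod_sv (μ : σ →₀ ℕ) :
    (μ.prod fun t n => sv (k := k) e t ^ n) = C (mm μ) * X ^ wt e μ := by
  have hmm : (mm μ : BB k σ) = ∏ t, (mon (Pi.single t 1, 0) : BB k σ) ^ μ t := by
    have h1 : ∀ (γ : Gam σ) (n : ℕ), (mon γ : BB k σ) ^ n = mon (n • γ) := by
      intro γ n
      induction n with
      | zero => simp [mon_zero]
      | succ n ih => rw [pow_succ, ih, mon_mul, succ_nsmul]
    have h2 : ∀ s : Finset σ, ∏ t ∈ s, (mon (Pi.single t 1, 0) : BB k σ) ^ μ t =
        mon (∑ t ∈ s, μ t • (Pi.single t 1, 0)) := by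
      intro s
      induction s using Finset.induction_on with
      | empty => simp [mon_zero]
      | insert a s ha ih => rw [Finset.prod_insert ha, ih, h1, mon_mul, Finset.sum_insert ha]
    rw [h2, mm]
    congr 1
    ext t
    · rw [Prod.fst_sum, Finset.sum_apply, Finset.sum_eq_single t]
      · simp
      · intro s _ hs
        simp [Pi.single_eq_of_ne (Ne.symm hs)]
      · intro h; exact absurd (Finset.mem_univ _) h
    · rw [Prod.snd_sum]
      simp
  rw [Finsupp.prod_fintype _ _ (fun t => by rw [pow_zero]), hmm, wt, map_prod,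
    ← Finset.prod_pow_eq_pow_sum, ← Finset.prod_mul_distrib]
  refine Finset.prod_congr rfl fun t _ => ?_
  rw [sv, mul_pow, map_pow, pow_mul]

theorem coeff_SS (he : ∀ t, e t ≠ 0) (f : MvPowerSeries σ ℂ) (n : ℕ) :
    coeff n (SS (k := k) e he f) = finsum fun μ : σ →₀ ℕ =>
      MvPowerSeries.coeff μ f • (if wt e μ = n then mm μ else 0) := by
  have h := MvPowerSeries.coeff_subst (sv_hasSubst (k := k) e he) f (Finsupp.single () n)
  have h2 : MvPowerSeries.coeff (Finsupp.single () n) (MvPowerSeries.subst (sv (k := k) e) f) =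
      coeff n (SS (k := k) e he f) := by
    rw [SS, ← MvPowerSeries.coe_substAlgHom (sv_hasSubst (k := k) e he)]
    rfl
  rw [← h2, h]
  refine finsum_congr fun μ => ?_
  congr 1
  change coeff n (μ.prod fun t n => sv (k := k) e t ^ n) = _
  rw [prod_sv, coeff_C_mul, coeff_X_pow]
  by_cases hn : n = wt e μ
  · rw [if_pos hn, if_pos hn.symm, mul_one]
  · rw [if_neg hn, if_neg (Ne.symm hn), mul_zero]

theorem coeff_SS_finite (he : ∀ t, e t ≠ 0) (f : MvPowerSeries σ ℂ) (n : ℕ) :
    (Function.support fun μ : σ →₀ ℕ =>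
      MvPowerSeries.coeff μ f • (if wt e μ = n then (mm μ : BB k σ) else 0)).Finite := by
  refine Set.Finite.subset (s := {μ : σ →₀ ℕ | ∀ t, μ t ≤ n}) ?_ ?_
  · have h1 : {μ : σ →₀ ℕ | ∀ t, μ t ≤ n} ⊆ Set.Iic (Finsupp.equivFunOnFinite.symm fun _ => n) := by
      intro μ hμ t
      exact hμ t
    exact Set.Finite.subset (Set.finite_Iic _) h1
  · intro μ hμ t
    have h1 : wt e μ = n := by
      by_contra hne
      exact hμ (by simp [if_neg hne])
    rw [← h1, wt]
    refine le_trans ?_ (Finset.single_le_sum (f := fun t => e t * μ t) (fun _ _ => Nat.zero_le _)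
      (Finset.mem_univ t))
    exact Nat.le_mul_of_pos_left _ (Nat.pos_of_ne_zero (he t))

theorem constantCoeff_SS (he : ∀ t, e t ≠ 0) (f : MvPowerSeries σ ℂ) :
    constantCoeff (SS (k := k) e he f) = algebraMap ℂ (BB k σ) (MvPowerSeries.constantCoeff f) := by
  rw [← coeff_zero_eq_constantCoeff_apply, coeff_SS, finsum_eq_single _ 0]
  · have h1 : wt e (0 : σ →₀ ℕ) = 0 := by simp [wt]
    rw [if_pos h1, MvPowerSeries.coeff_zero_eq_constantCoeff_apply, Algebra.algebraMap_eq_smul_one]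
    rfl
  · intro μ hμ
    rw [if_neg, smul_zero]
    intro h
    apply hμ
    ext t
    rw [wt, Finset.sum_eq_zero_iff] at h
    have := h t (Finset.mem_univ t)
    rcases Nat.mul_eq_zero.1 this with h' | h'
    · exact absurd h' (he t)
    · exact h'

theorem SS_X (he : ∀ t, e t ≠ 0) (t : σ) :
    SS (k := k) e he (MvPowerSeries.X t) = C (mon (Pi.single t 1, 0)) * X ^ e t := by
  rw [SS, MvPowerSeries.substAlgHom_X]
  rfl

theorem coeff_X_mul_pderiv (t : σ) (f : MvPowerSeries σ ℂ) (μ : σ →₀ ℕ) :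
    MvPowerSeries.coeff μ (MvPowerSeries.X t * MvPowerSeries.pderiv ℂ t f) =
      (μ t : ℂ) * MvPowerSeries.coeff μ f := by
  rw [MvPowerSeries.X_def, MvPowerSeries.coeff_monomial_mul]
  split_ifs with h
  · rw [one_mul, MvPowerSeries.coeff_pderiv, tsub_add_cancel_of_le h, mul_comm]
    congr 1
    have h1 : 1 ≤ μ t := by simpa using h t
    rw [Finsupp.tsub_apply, Finsupp.single_eq_same, Nat.cast_sub h1]
    push_cast
    ring
  · have h1 : μ t = 0 := by
      by_contra hne
      exact h (Finsupp.single_le_iff.2 (Nat.one_le_iff_ne_zero.2 hne))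
    rw [h1, Nat.cast_zero, zero_mul]

/-- the derivations -/
theorem PD_SS (he : ∀ t, e t ≠ 0) (d : σ → ℕ) (b : σ → k) (t : σ) (f : MvPowerSeries σ ℂ) :
    PD (Th d b t) (SS e he f) = SS e he (MvPowerSeries.X t * MvPowerSeries.pderiv ℂ t f) := by
  ext1 n
  rw [coeff_PD, coeff_SS, coeff_SS]
  have h1 := AddMonoidHom.map_finsum ((Th d b t : BB k σ →ₗ[k] BB k σ) : BB k σ →+ BB k σ)
    (coeff_SS_finite (k := k) e he f n)
  refine h1.trans (finsum_congr fun μ => ?_)
  change Th d b t (MvPowerSeries.coeff μ f • (if wt e μ = n then mm μ else 0)) = _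
  rw [coeff_X_mul_pderiv]
  have h3 : ∀ (r : ℂ) (v : BB k σ), r • v = (algebraMap ℂ k r) • v := fun r v =>
    (algebraMap_smul k r v).symm
  rw [h3, Derivation.map_smul, h3]
  split_ifs with h
  · have h2 : Th d b t (mm μ : BB k σ) = (μ t : k) • mm μ := by
      rw [mm, Th_mon]
      simp
    rw [h2, smul_smul, map_mul, map_natCast, mul_comm]
  · simp

/-- the span of monomials -/
noncomputable def Ip (Z : Gam σ → Prop) : Submodule k (BB k σ) :=
  Submodule.span k {v | ∃ γ : Gam σ, Z γ ∧ v = mon γ}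

/-- the Laurent polynomials which stabilise it -/
noncomputable def Bp (Z : Gam σ → Prop) : Subalgebra k (BB k σ) where
  carrier := {a | ∀ v ∈ (Ip Z : Submodule k (BB k σ)), a * v ∈ (Ip Z : Submodule k (BB k σ))}
  mul_mem' {a a'} h h' v hv := by
    rw [mul_assoc]
    exact h _ (h' _ hv)
  add_mem' {a a'} h h' v hv := by
    rw [add_mul]
    exact (Ip Z).add_mem (h _ hv) (h' _ hv)
  algebraMap_mem' r v hv := by
    rw [← Algebra.smul_def]
    exact (Ip Z).smul_mem _ hv

variable (Z : Gam σ → Prop)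

theorem mon_mem_Bp (γ : Gam σ) (h : ∀ δ, Z δ → Z (γ + δ)) : (mon γ : BB k σ) ∈ Bp Z := by
  intro v hv
  induction hv using Submodule.span_induction with
  | mem v hv =>
    obtain ⟨δ, hδ, rfl⟩ := hv
    rw [mon_mul]
    exact Submodule.subset_span ⟨γ + δ, h δ hδ, rfl⟩
  | zero => rw [mul_zero]; exact (Ip Z).zero_mem
  | add v w _ _ h1 h2 => rw [mul_add]; exact (Ip Z).add_mem h1 h2
  | smul r v _ h1 => rw [mul_smul_comm]; exact (Ip Z).smul_mem _ h1

theorem lam_Ip (I : Ideal k) (d K : σ → ℕ) (g : σ → ℤ → k) (p c : ℤ → k)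
    (h : ∀ γ, Z γ → val d K g p c γ ∈ I) (v : BB k σ) (hv : v ∈ (Ip Z : Submodule k (BB k σ))) :
    lam d K g p c v ∈ I := by
  induction hv using Submodule.span_induction with
  | mem v hv =>
    obtain ⟨δ, hδ, rfl⟩ := hv
    rw [lam_mon]
    exact h δ hδ
  | zero => rw [map_zero]; exact I.zero_mem
  | add v w _ _ h1 h2 => rw [map_add]; exact I.add_mem h1 h2
  | smul r v _ h1 => rw [map_smul]; exact I.mul_mem_left _ h1

/-- the exponents without negative entries, and with exponent `0` or `1` of `η`, are admissible -/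
def Adm (Z : Gam σ → Prop) : Prop :=
  ∀ (γ δ : Gam σ), (∀ t, 0 ≤ γ.1 t) → 0 ≤ γ.2 → Z δ → Z (γ + δ)

theorem tp_mem_Bp (hZ : Adm Z) (d : σ → ℕ) (b : σ → k) : tp d b ∈ Bp Z := by
  refine (Bp Z).sub_mem (mon_mem_Bp Z _ fun δ => hZ _ δ (fun t => le_refl _) (by simp))
    ((Bp Z).sum_mem fun t _ => (Bp Z).smul_mem (mon_mem_Bp Z _ fun δ => hZ _ δ (fun s => ?_)
      (le_refl _)) _)
  change (0 : ℤ) ≤ (Pi.single t (d t : ℤ) : σ → ℤ) s
  rw [Pi.single_apply]
  split_ifs <;> omega

/-- the power series with coefficients in `Bp Z` -/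
noncomputable def Rp (Z : Gam σ → Prop) : Subalgebra k (BB k σ)⟦X⟧ where
  carrier := {u | ∀ n, coeff n u ∈ Bp Z}
  mul_mem' {a a'} h h' n := by
    rw [PowerSeries.coeff_mul]
    exact (Bp Z).sum_mem fun x _ => (Bp Z).mul_mem (h _) (h' _)
  add_mem' {a a'} h h' n := by
    rw [map_add]
    exact (Bp Z).add_mem (h _) (h' _)
  algebraMap_mem' r n := by
    rw [PowerSeries.algebraMap_apply, coeff_C]
    split_ifs
    · exact (Bp Z).algebraMap_mem _
    · exact (Bp Z).zero_mem

theorem C_mem_Rp (v : BB k σ) (hv : v ∈ Bp Z) : C v ∈ Rp Z := by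
  intro n
  rw [coeff_C]
  split_ifs
  · exact hv
  · exact (Bp Z).zero_mem

theorem X_mem_Rp : (X : (BB k σ)⟦X⟧) ∈ Rp Z := by
  intro n
  rw [coeff_X]
  split_ifs
  · exact (Bp Z).one_mem
  · exact (Bp Z).zero_mem

theorem SS_mem_Rp (hZ : Adm Z) (he : ∀ t, e t ≠ 0) (f : MvPowerSeries σ ℂ) :
    (SS e he f : (BB k σ)⟦X⟧) ∈ Rp Z := by
  intro n
  rw [coeff_SS]
  refine finsum_induction (· ∈ Bp Z) (Bp Z).zero_mem (fun _ _ => (Bp Z).add_mem) fun μ => ?_
  have h3 : ∀ (r : ℂ) (v : BB k σ), r • v = (algebraMap ℂ k r) • v := fun r v =>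
    (algebraMap_smul k r v).symm
  rw [h3]
  refine (Bp Z).smul_mem ?_ _
  split_ifs
  · exact mon_mem_Bp Z _ fun δ => hZ _ δ (fun t => by simp) (le_refl _)
  · exact (Bp Z).zero_mem

theorem SS_high (hZ : Adm Z) (he : ∀ t, e t ≠ 0) (f : MvPowerSeries σ ℂ) (N : ℕ)
    (hf : ∀ μ, MvPowerSeries.coeff μ f ≠ 0 → N ≤ wt e μ) :
    ∃ r ∈ (Rp Z : Subalgebra k (BB k σ)⟦X⟧), SS e he f = X ^ N * r := by
  have h1 : ∀ n < N, coeff n (SS e he f : (BB k σ)⟦X⟧) = 0 := by
    intro n hn
    rw [coeff_SS]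
    refine finsum_eq_zero_of_forall_eq_zero fun μ => ?_
    by_cases h : MvPowerSeries.coeff μ f = 0
    · rw [h, zero_smul]
    · rw [if_neg, smul_zero]
      intro h'
      have := hf μ h
      omega
  obtain ⟨r, hr⟩ := X_pow_dvd_iff.2 h1
  refine ⟨r, fun n => ?_, hr⟩
  have h2 := SS_mem_Rp (k := k) e Z hZ he f (n + N)
  rwa [hr, coeff_X_pow_mul] at h2

theorem SS_low (hZ : Adm Z) (he : ∀ t, e t ≠ 0) (d : σ → ℕ) (b : σ → ℂ)
    (hd : ∀ t, d t ≠ 0) (D : ℕ) (hD : ∀ t, e t * d t = D)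
    (h : MvPowerSeries σ ℂ)
    (hb' : ∀ t, MvPowerSeries.coeff (Finsupp.single t (d t)) h = b t)
    (hh : ∀ μ, MvPowerSeries.coeff μ h ≠ 0 →
      D < wt e μ ∨ ∃ t, μ = Finsupp.single t (d t)) :
    ∃ r ∈ (Rp Z : Subalgebra k (BB k σ)⟦X⟧), SS e he h =
      X ^ D * (C (∑ t, algebraMap ℂ k (b t) • mon (dl d t 0)) + X * r) := by
  have hinj : ∀ s t, Finsupp.single s (d s) = Finsupp.single t (d t) → s = t := by
    intro s t hst
    by_contra hne
    have := congrArg (fun μ : σ →₀ ℕ => μ s) hst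
    simp only [Finsupp.single_eq_same, Finsupp.single_eq_of_ne hne] at this
    exact hd s this
  set h' : MvPowerSeries σ ℂ := h - ∑ t, b t • MvPowerSeries.X t ^ d t with hh'
  have hc : ∀ μ, MvPowerSeries.coeff μ h' ≠ 0 → D + 1 ≤ wt e μ := by
    intro μ hμ
    have h1 : MvPowerSeries.coeff μ h' = MvPowerSeries.coeff μ h -
        ∑ t, b t * (if μ = Finsupp.single t (d t) then 1 else 0) := by
      rw [hh', map_sub, map_sum]
      congr 1
      refine Finset.sum_congr rfl fun t _ => ?_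
      rw [MvPowerSeries.coeff_smul, MvPowerSeries.coeff_X_pow]
    by_cases hex : ∃ t, μ = Finsupp.single t (d t)
    · exfalso
      obtain ⟨t, rfl⟩ := hex
      apply hμ
      rw [h1, hb' t, Finset.sum_eq_single t]
      · rw [if_pos rfl, mul_one, sub_self]
      · intro s _ hs
        rw [if_neg, mul_zero]
        intro h2
        exact hs (hinj t s h2).symm
      · intro h2
        exact absurd (Finset.mem_univ _) h2
    · have h2 : MvPowerSeries.coeff μ h' = MvPowerSeries.coeff μ h := by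
        rw [h1, Finset.sum_eq_zero, sub_zero]
        intro t _
        rw [if_neg, mul_zero]
        intro h2
        exact hex ⟨t, h2⟩
      rw [h2] at hμ
      rcases hh μ hμ with h3 | h3
      · exact h3
      · exact absurd h3 hex
  obtain ⟨r, hr, hr'⟩ := SS_high (k := k) e Z hZ he h' (D + 1) hc
  refine ⟨r, hr, ?_⟩
  have h1 : h = h' + ∑ t, b t • MvPowerSeries.X t ^ d t := by rw [hh']; ring
  have h2 : ∀ t, (SS e he (b t • MvPowerSeries.X t ^ d t) : (BB k σ)⟦X⟧) =
      X ^ D * C (algebraMap ℂ k (b t) • mon (dl d t 0)) := by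
    intro t
    rw [map_smul, map_pow, SS_X, mul_pow, ← pow_mul, hD t, ← map_pow]
    have h3 : (mon (Pi.single t 1, 0) : BB k σ) ^ d t = mon (dl d t 0) := by
      have h4 : ∀ (γ : Gam σ) (n : ℕ), (mon γ : BB k σ) ^ n = mon (n • γ) := by
        intro γ n
        induction n with
        | zero => simp [mon_zero]
        | succ n ih => rw [pow_succ, ih, mon_mul, succ_nsmul]
      rw [h4]
      congr 1
      ext s
      · simp only [dl, Prod.smul_fst, Pi.smul_apply, Pi.single_apply]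
        split_ifs <;> simp
      · simp [dl]
    rw [h3, mul_comm, ← mul_smul_comm]
    congr 1
    ext1 n
    rw [PowerSeries.coeff_smul, coeff_C, coeff_C]
    split_ifs
    · exact (algebraMap_smul k (b t) (mon (dl d t 0) : BB k σ)).symm
    · rw [smul_zero]
  rw [h1, map_add, map_sum, hr', Finset.sum_congr rfl fun t _ => h2 t, ← Finset.mul_sum,
    ← map_sum, pow_succ]
  ring

end Pool.Agent.H63.VH
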